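import Pool.Agent.H352R3.SA.Pot
import Pool.Agent.H352R3.SA.Bnd
import Pool.Agent.Y839.RO.POM

/-!
# Project TC, job PGF, part C: potentials of `∂̄ f` for bounded functions with a limit at infinity
-/

set_option autoImplicit false

namespace Pool.Agent.Q89.TC

open MeasureTheory Set Metric Filter Topology
open scoped ComplexConjugate ContDiff
open Pool.Agent.H352R3.SA (Den pot pot_integrable pot_tendsto pot_bound)
open Pool.Agent.Y271.RO (db ht)

/-- the bump function -/
noncomputable def bump : ContDiffBump (0 : ℂ) := ⟨1, 2, one_pos, one_lt_two⟩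

/-- complex valued bump function -/
noncomputable def XX (v : ℂ) : ℂ := ((bump v : ℝ) : ℂ)

/-- the cut-off -/
noncomputable def cut (R : ℝ) (p w : ℂ) : ℝ := bump ((R⁻¹ : ℝ) • (w - p))

theorem XX_contDiff : ContDiff ℝ 1 XX :=
  Complex.ofRealCLM.contDiff.comp bump.contDiff

theorem XX_tsupport : tsupport XX ⊆ closedBall 0 2 := by
  refine closure_minimal ?_ isClosed_closedBall
  intro v hv
  by_contra h
  apply hv
  unfold XX
  have h1 : bump v = 0 := by
    apply bump.zero_of_le_dist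
    rw [mem_closedBall, not_le] at h
    exact h.le
  rw [h1]
  simp

theorem XX_compact : HasCompactSupport XX :=
  HasCompactSupport.of_support_subset_isCompact (isCompact_closedBall (0:ℂ) 2)
    (subset_closure.trans XX_tsupport)

theorem XX_zero : XX 0 = 1 := by
  unfold XX
  rw [bump.one_of_mem_closedBall]
  · simp
  · simp [bump]

theorem dbXX_small {v : ℂ} (hv : ‖v‖ < 1) : db XX v = 0 := by
  have h1 : XX =ᶠ[𝓝 v] fun _ => (1:ℂ) := by
    have h2 : ball (0:ℂ) 1 ∈ 𝓝 v := isOpen_ball.mem_nhds (by simpa using hv)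
    filter_upwards [h2] with x hx
    unfold XX
    rw [bump.one_of_mem_closedBall]
    · simp
    · exact ball_subset_closedBall hx
  unfold db
  rw [h1.fderiv_eq]
  simp

theorem dbXX_large {v : ℂ} (hv : 2 < ‖v‖) : db XX v = 0 := by
  apply Pool.Agent.Y839.RO.db_supp
  intro h
  have := XX_tsupport h
  rw [mem_closedBall_zero_iff] at this
  linarith

theorem dbXX_cont : Continuous (db XX) := Pool.Agent.Y839.RO.db_cont XX_contDiff

theorem dbXX_compact : HasCompactSupport (db XX) := by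
  refine HasCompactSupport.of_support_subset_isCompact (isCompact_closedBall (0:ℂ) 2) ?_
  intro v hv
  rw [mem_closedBall_zero_iff]
  by_contra h
  push Not at h
  exact hv (dbXX_large h)

theorem db_scale {F : ℂ → ℂ} {R : ℝ} {p w : ℂ}
    (hF : DifferentiableAt ℝ F ((R⁻¹ : ℝ) • (w - p))) :
    db (fun w => F ((R⁻¹ : ℝ) • (w - p))) w = ((R⁻¹ : ℝ) : ℂ) * db F ((R⁻¹ : ℝ) • (w - p)) := by
  have h1 : HasFDerivAt (fun w : ℂ => (R⁻¹ : ℝ) • (w - p))
      ((R⁻¹ : ℝ) • ContinuousLinearMap.id ℝ ℂ) w :=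
    ((hasFDerivAt_id w).sub_const p).const_smul (R⁻¹ : ℝ)
  have h2 := (hF.hasFDerivAt.comp w h1).fderiv
  have h3 : fderiv ℝ (fun w => F ((R⁻¹ : ℝ) • (w - p))) w =
    (fderiv ℝ F ((R⁻¹ : ℝ) • (w - p))).comp ((R⁻¹ : ℝ) • ContinuousLinearMap.id ℝ ℂ) := h2
  have h4 : ∀ v : ℂ, ((fderiv ℝ F ((R⁻¹ : ℝ) • (w - p))).comp
      ((R⁻¹ : ℝ) • ContinuousLinearMap.id ℝ ℂ)) v =
      ((R⁻¹ : ℝ) : ℂ) * fderiv ℝ F ((R⁻¹ : ℝ) • (w - p)) v := by
    intro v
    rw [← Complex.real_smul]
    exact (fderiv ℝ F ((R⁻¹ : ℝ) • (w - p))).map_smul (R⁻¹ : ℝ) v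
  unfold db
  rw [h3, h4, h4]
  ring

theorem integral_scale (h : ℂ → ℂ) {R : ℝ} (hR : 0 < R) (p : ℂ) :
    ∫ w, h ((R⁻¹ : ℝ) • (w - p)) = ((R ^ 2 : ℝ) : ℂ) * ∫ v, h v := by
  have h1 := integral_sub_right_eq_self (μ := (volume : Measure ℂ))
    (fun w : ℂ => h ((R⁻¹ : ℝ) • w)) p
  rw [h1]
  have h2 := Measure.integral_comp_smul (volume : Measure ℂ) h (R⁻¹)
  rw [h2, Complex.finrank_real_complex, Complex.real_smul]
  congr 2
  rw [inv_pow, inv_inv, abs_of_pos (by positivity)]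

theorem pot_scale (φ : ℂ → ℂ) {R : ℝ} (hR : 0 < R) (p z : ℂ) :
    pot (fun w => φ ((R⁻¹ : ℝ) • (w - p))) z = (R : ℂ) * pot φ ((R⁻¹ : ℝ) • (z - p)) := by
  have hRc : (R : ℂ) ≠ 0 := by exact_mod_cast hR.ne'
  have h1 := integral_scale (fun v => φ v * ((R⁻¹ : ℝ) • (z - p) - v)⁻¹) hR p
  have h2 : ∀ w, φ ((R⁻¹ : ℝ) • (w - p)) * ((R⁻¹ : ℝ) • (z - p) - (R⁻¹ : ℝ) • (w - p))⁻¹ =
      (R : ℂ) * (φ ((R⁻¹ : ℝ) • (w - p)) * (z - w)⁻¹) := by
    intro w
    have h3 : (R⁻¹ : ℝ) • (z - p) - (R⁻¹ : ℝ) • (w - p) = (R : ℂ)⁻¹ * (z - w) := by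
      simp only [Complex.real_smul, Complex.ofReal_inv]
      ring
    rw [h3, mul_inv, inv_inv]
    ring
  simp only [h2] at h1
  rw [integral_const_mul] at h1
  unfold pot
  have h4 : (R : ℂ) * ∫ w, φ ((R⁻¹ : ℝ) • (w - p)) * (z - w)⁻¹ =
      (R : ℂ) * ((R : ℂ) * ∫ v, φ v * ((R⁻¹ : ℝ) • (z - p) - v)⁻¹) := by
    rw [h1]
    push_cast
    ring
  exact mul_left_cancel₀ hRc h4

theorem pot_eq_neg_ht (g : ℂ → ℂ) (z : ℂ) : pot g z = - ht g z := by
  unfold pot ht
  rw [← integral_neg]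
  congr 1
  funext w
  rw [← neg_sub, inv_neg]
  ring

theorem pot_add {φ ψ : ℂ → ℂ} (h1 : Continuous φ) (h2 : HasCompactSupport φ) (h3 : Continuous ψ)
    (h4 : HasCompactSupport ψ) (z : ℂ) : pot (fun w => φ w + ψ w) z = pot φ z + pot ψ z := by
  unfold pot
  rw [← integral_add (pot_integrable h1 h2 z) (pot_integrable h3 h4 z)]
  congr 1
  funext w
  ring

theorem cut_nonneg (R : ℝ) (p w : ℂ) : 0 ≤ cut R p w := bump.nonneg

theorem cut_le_one (R : ℝ) (p w : ℂ) : cut R p w ≤ 1 := bump.le_one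

theorem cut_one {R : ℝ} (hR : 0 < R) {p w : ℂ} (h : ‖w - p‖ ≤ R) : cut R p w = 1 := by
  unfold cut
  apply bump.one_of_mem_closedBall
  rw [mem_closedBall_zero_iff, norm_smul, Real.norm_of_nonneg (by positivity)]
  change R⁻¹ * ‖w - p‖ ≤ 1
  rw [inv_mul_le_iff₀ hR]
  linarith

theorem contDiff_const_smul_aux (R : ℝ) (p : ℂ) :
    ContDiff ℝ 1 (fun w : ℂ => (R⁻¹ : ℝ) • (w - p)) := by
  have h : (fun w : ℂ => (R⁻¹ : ℝ) • (w - p)) = fun w : ℂ => ((R⁻¹ : ℝ) : ℂ) * (w - p) := by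
    funext w
    rw [Complex.real_smul]
  rw [h]
  exact contDiff_const.mul (contDiff_id.sub contDiff_const)

theorem cutC_contDiff (R : ℝ) (p : ℂ) : ContDiff ℝ 1 (fun w => ((cut R p w : ℝ) : ℂ)) := by
  have h1 : (fun w => ((cut R p w : ℝ) : ℂ)) = fun w => XX ((R⁻¹ : ℝ) • (w - p)) := rfl
  rw [h1]
  exact XX_contDiff.comp (contDiff_const_smul_aux R p)

theorem cut_continuous (R : ℝ) (p : ℂ) : Continuous (cut R p) := by
  unfold cut
  exact bump.continuous.comp (by fun_prop)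

theorem cutC_support {R : ℝ} (hR : 0 < R) {p w : ℂ} (h : 2 * R < ‖w - p‖) : cut R p w = 0 := by
  unfold cut
  apply bump.zero_of_le_dist
  rw [dist_zero_right, norm_smul, Real.norm_of_nonneg (by positivity)]
  change 2 ≤ R⁻¹ * ‖w - p‖
  rw [le_inv_mul_iff₀ hR]
  linarith

theorem cutC_compact {R : ℝ} (hR : 0 < R) (p : ℂ) :
    HasCompactSupport (fun w => ((cut R p w : ℝ) : ℂ)) := by
  refine HasCompactSupport.of_support_subset_isCompact (isCompact_closedBall p (2 * R)) ?_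
  intro w hw
  rw [mem_closedBall, dist_eq_norm]
  by_contra h
  push Not at h
  apply hw
  simp only [cutC_support hR h, Complex.ofReal_zero]

theorem db_cutC (R : ℝ) (p w : ℂ) : db (fun w => ((cut R p w : ℝ) : ℂ)) w =
    ((R⁻¹ : ℝ) : ℂ) * db XX ((R⁻¹ : ℝ) • (w - p)) :=
  db_scale (F := XX) (XX_contDiff.differentiable one_ne_zero _)

/-- the formula of Cauchy and Pompeiu for the cut-off function -/
theorem pot_cut {f : ℂ → ℂ} (hf : ContDiff ℝ 1 f) {R : ℝ} (hR : 0 < R) (p z : ℂ) :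
    pot (fun w => ((cut R p w : ℝ) : ℂ) * db f w) z = Real.pi * (((cut R p z : ℝ) : ℂ) * f z) -
      pot (fun v => f (p + R • v) * db XX v) ((R⁻¹ : ℝ) • (z - p)) ∧
    ∫ w, ((cut R p w : ℝ) : ℂ) * db f w = - ((R : ℂ) * ∫ v, f (p + R • v) * db XX v) := by
  have hRc : (R : ℂ) ≠ 0 := by exact_mod_cast hR.ne'
  have hX := cutC_contDiff R p
  have hXc := cutC_compact hR p
  have hprod : ContDiff ℝ 1 (fun w => ((cut R p w : ℝ) : ℂ) * f w) := hX.mul hf
  have hpc : HasCompactSupport (fun w => ((cut R p w : ℝ) : ℂ) * f w) := hXc.mul_right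
  have hdb : ∀ w, db (fun w => ((cut R p w : ℝ) : ℂ) * f w) w =
      ((R⁻¹ : ℝ) : ℂ) * (f w * db XX ((R⁻¹ : ℝ) • (w - p))) + ((cut R p w : ℝ) : ℂ) * db f w := by
    intro w
    rw [Pool.Agent.Y839.RO.db_mul (hX.differentiable one_ne_zero w)
      (hf.differentiable one_ne_zero w), db_cutC]
    ring
  -- the first function
  have hφ : ∀ w, f w * db XX ((R⁻¹ : ℝ) • (w - p)) =
      (fun v => f (p + R • v) * db XX v) ((R⁻¹ : ℝ) • (w - p)) := by
    intro w
    simp only
    rw [smul_smul, mul_inv_cancel₀ hR.ne', one_smul]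
    congr 2
    ring
  have hdbf : Continuous (db f) := Pool.Agent.Y839.RO.db_cont hf
  have hg1c : Continuous (fun w => ((cut R p w : ℝ) : ℂ) * db f w) :=
    (Complex.continuous_ofReal.comp (cut_continuous R p)).mul hdbf
  have hg1s : HasCompactSupport (fun w => ((cut R p w : ℝ) : ℂ) * db f w) := hXc.mul_right
  have hg2c : Continuous (fun w => ((R⁻¹ : ℝ) : ℂ) * (f w * db XX ((R⁻¹ : ℝ) • (w - p)))) :=
    continuous_const.mul (hf.continuous.mul (dbXX_cont.comp (by fun_prop)))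
  have hg2s : HasCompactSupport
      (fun w => ((R⁻¹ : ℝ) : ℂ) * (f w * db XX ((R⁻¹ : ℝ) • (w - p)))) := by
    refine HasCompactSupport.of_support_subset_isCompact (isCompact_closedBall p (2 * R)) ?_
    intro w hw
    rw [mem_closedBall, dist_eq_norm]
    by_contra h
    push Not at h
    apply hw
    have h1 : db XX ((R⁻¹ : ℝ) • (w - p)) = 0 := by
      apply dbXX_large
      rw [norm_smul, Real.norm_of_nonneg (by positivity), lt_inv_mul_iff₀ hR]
      linarith
    simp only [h1, mul_zero]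
  have hsum : (db fun w => ((cut R p w : ℝ) : ℂ) * f w) = fun w =>
      ((R⁻¹ : ℝ) : ℂ) * (f w * db XX ((R⁻¹ : ℝ) • (w - p))) + ((cut R p w : ℝ) : ℂ) * db f w :=
    funext hdb
  have hpot : ∀ z, pot (db fun w => ((cut R p w : ℝ) : ℂ) * f w) z =
      Real.pi * (((cut R p z : ℝ) : ℂ) * f z) := by
    intro z
    rw [pot_eq_neg_ht, Pool.Agent.Y839.RO.pom _ hprod hpc z, neg_neg]
  have hp2 : ∀ z, pot (fun w => ((R⁻¹ : ℝ) : ℂ) * (f w * db XX ((R⁻¹ : ℝ) • (w - p)))) z =
      pot (fun v => f (p + R • v) * db XX v) ((R⁻¹ : ℝ) • (z - p)) := by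
    intro z
    have h1 := pot_scale (fun v => f (p + R • v) * db XX v) hR p z
    have h2 : pot (fun w => ((R⁻¹ : ℝ) : ℂ) * (f w * db XX ((R⁻¹ : ℝ) • (w - p)))) z =
        ((R⁻¹ : ℝ) : ℂ) * pot (fun w => f w * db XX ((R⁻¹ : ℝ) • (w - p))) z := by
      unfold pot
      rw [← integral_const_mul]
      congr 1
      funext w
      ring
    rw [h2]
    simp only [hφ]
    rw [h1, ← mul_assoc]
    push_cast
    rw [inv_mul_cancel₀ hRc, one_mul]
  constructor
  · have h1 := hpot z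
    rw [hsum, pot_add hg2c hg2s hg1c hg1s, hp2] at h1
    rw [← h1]
    ring
  · have hint : ∫ w, db (fun w => ((cut R p w : ℝ) : ℂ) * f w) w = 0 := by
      have hcont : Continuous (db fun w => ((cut R p w : ℝ) : ℂ) * f w) :=
        Pool.Agent.Y839.RO.db_cont hprod
      have hcs : HasCompactSupport (db fun w => ((cut R p w : ℝ) : ℂ) * f w) := by
        rw [hsum]
        exact hg2s.add hg1s
      have h1 := pot_tendsto hcont hcs
      have h2 : Tendsto (fun z => z * pot (db fun w => ((cut R p w : ℝ) : ℂ) * f w) z)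
          (cocompact ℂ) (𝓝 0) := by
        refine tendsto_const_nhds.congr' ?_
        have h3 : (closedBall p (2 * R))ᶜ ∈ cocompact ℂ :=
          (isCompact_closedBall p (2 * R)).compl_mem_cocompact
        filter_upwards [h3] with w hw
        rw [mem_compl_iff, mem_closedBall, dist_eq_norm, not_le] at hw
        rw [hpot, cutC_support hR hw]
        simp
      exact tendsto_nhds_unique h1 h2
    rw [hsum, integral_add (hg2c.integrable_of_hasCompactSupport hg2s)
      (hg1c.integrable_of_hasCompactSupport hg1s), integral_const_mul] at hint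
    simp only [hφ] at hint
    rw [integral_scale (fun v => f (p + R • v) * db XX v) hR p] at hint
    have h5 : ∫ w, ((cut R p w : ℝ) : ℂ) * db f w =
      -(((R⁻¹ : ℝ) : ℂ) * (((R ^ 2 : ℝ) : ℂ) * ∫ v, f (p + R • v) * db XX v)) := by
      linear_combination hint
    rw [h5]
    push_cast
    field_simp

/-- potential and total charge of the cut-off `∂̄`-derivative -/
theorem cut_main {f : ℂ → ℂ} (hf : ContDiff ℝ 1 f) (p c : ℂ) (B : ℝ) (hB : ∀ w, ‖f w‖ ≤ B)
    (hlim : Tendsto (fun w => (w - p) * f w) (cocompact ℂ) (𝓝 c)) (η : ℝ) (hη : 0 < η) :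
    ∃ R₀ : ℝ, 0 < R₀ ∧ ∀ R, R₀ ≤ R →
      (∀ z, ‖pot (fun w => ((cut R p w : ℝ) : ℂ) * db f w) z‖ ≤ Real.pi * B + η) ∧
      ‖(∫ w, ((cut R p w : ℝ) : ℂ) * db f w) - Real.pi * c‖ ≤ η := by
  obtain ⟨C, hC0, hC⟩ := pot_bound 2
  obtain ⟨M, hM⟩ := dbXX_cont.bounded_above_of_compact_support dbXX_compact
  have hM0 : 0 ≤ M := (norm_nonneg _).trans (hM 0)
  obtain ⟨I, hI⟩ : ∃ I : ℝ, I = ∫ v, ‖db XX v‖ := ⟨_, rfl⟩
  have hI0 : 0 ≤ I := by rw [hI]; exact integral_nonneg fun _ => norm_nonneg _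
  -- the limit
  obtain ⟨η', hη'0, hη'1, hη'2⟩ : ∃ η' : ℝ, 0 < η' ∧ η' ≤ 1 ∧ η' * I ≤ η := by
    refine ⟨min 1 (η / (I + 1)), by positivity, min_le_left _ _, ?_⟩
    calc min 1 (η / (I + 1)) * I ≤ η / (I + 1) * I := by
          gcongr
          exact min_le_right _ _
      _ ≤ η / (I + 1) * (I + 1) := by gcongr; linarith
      _ = η := by field_simp
  have h1 : ∀ᶠ w in cocompact ℂ, ‖(w - p) * f w - c‖ < η' := by
    have := (tendsto_iff_norm_sub_tendsto_zero.1 hlim).eventually_lt_const hη'0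
    exact this
  obtain ⟨r, hr⟩ := Metric.closedBall_compl_subset_of_mem_cocompact h1 p
  obtain ⟨R₀, hR0⟩ : ∃ R₀ : ℝ, R₀ = |r| + 1 + C * (M * (‖c‖ + 1)) / η := ⟨_, rfl⟩
  have hq0 : 0 ≤ C * (M * (‖c‖ + 1)) / η := by positivity
  have hR0pos : 0 < R₀ := by rw [hR0]; positivity
  refine ⟨R₀, hR0pos, fun R hR => ?_⟩
  have hRp : 0 < R := hR0pos.trans_le hR
  have hRr : r < R := by
    have := le_abs_self r
    rw [hR0] at hR
    linarith
  have hRc : (R : ℂ) ≠ 0 := by exact_mod_cast hRp.ne'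
  have hfar : ∀ v : ℂ, 1 ≤ ‖v‖ → ‖(R : ℂ) * v * f (p + R • v) - c‖ < η' := by
    intro v hv
    have h2 : p + R • v ∈ (closedBall p r)ᶜ := by
      rw [mem_compl_iff, mem_closedBall, dist_eq_norm, not_le]
      have h3 : p + R • v - p = R • v := by ring
      rw [h3, norm_smul, Real.norm_of_nonneg hRp.le]
      nlinarith
    have h4 := hr h2
    have h5 : p + R • v - p = (R : ℂ) * v := by rw [Complex.real_smul]; ring
    simp only [mem_ofPred_eq, h5] at h4
    exact h4
  have hfc : Continuous fun v : ℂ => f (p + R • v) * db XX v :=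
    (hf.continuous.comp (by fun_prop)).mul dbXX_cont
  constructor
  · intro z
    rw [(pot_cut hf hRp p z).1]
    have h2 : ‖(Real.pi : ℂ) * (((cut R p z : ℝ) : ℂ) * f z)‖ ≤ Real.pi * B := by
      rw [norm_mul, norm_mul, Complex.norm_real, Complex.norm_real,
        Real.norm_of_nonneg Real.pi_pos.le, Real.norm_of_nonneg (cut_nonneg R p z)]
      refine mul_le_mul_of_nonneg_left ?_ Real.pi_pos.le
      calc cut R p z * ‖f z‖ ≤ 1 * ‖f z‖ :=
            mul_le_mul_of_nonneg_right (cut_le_one R p z) (norm_nonneg _)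
        _ ≤ B := by rw [one_mul]; exact hB z
    have h3 : ‖pot (fun v => f (p + R • v) * db XX v) ((R⁻¹ : ℝ) • (z - p))‖ ≤
        C * (M * (‖c‖ + 1) / R) := by
      apply hC _ _ hfc
      · intro v hv
        rw [dbXX_large hv, mul_zero]
      · intro v
        by_cases hv : ‖v‖ < 1
        · rw [dbXX_small hv, mul_zero, norm_zero]
          positivity
        · push Not at hv
          have h4 := hfar v hv
          have h5 : ‖(R : ℂ) * v * f (p + R • v)‖ ≤ ‖c‖ + 1 := by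
            have h6 : (R : ℂ) * v * f (p + R • v) = ((R : ℂ) * v * f (p + R • v) - c) + c := by
              ring
            rw [h6]
            refine (norm_add_le _ _).trans ?_
            linarith
          rw [norm_mul, norm_mul, Complex.norm_real, Real.norm_of_nonneg hRp.le] at h5
          rw [norm_mul]
          have h7 : ‖f (p + R • v)‖ ≤ (‖c‖ + 1) / R := by
            rw [le_div_iff₀ hRp]
            have h8 : R * 1 * ‖f (p + R • v)‖ ≤ R * ‖v‖ * ‖f (p + R • v)‖ := by gcongr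
            linarith
          calc ‖f (p + R • v)‖ * ‖db XX v‖ ≤ ((‖c‖ + 1) / R) * M := by
                gcongr
                exact hM v
            _ = M * (‖c‖ + 1) / R := by ring
    have h9 : C * (M * (‖c‖ + 1) / R) ≤ η := by
      rw [← mul_div_assoc, div_le_iff₀ hRp]
      have h10 : C * (M * (‖c‖ + 1)) / η ≤ R := by
        rw [hR0] at hR
        have := abs_nonneg r
        linarith
      rw [div_le_iff₀ hη] at h10
      linarith
    exact (norm_sub_le _ _).trans (by linarith)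
  · rw [(pot_cut hf hRp p 0).2]
    have h2 : ht (db XX) 0 = -(Real.pi * XX 0) :=
      Pool.Agent.Y839.RO.pom _ XX_contDiff XX_compact 0
    rw [XX_zero, mul_one] at h2
    have h3 : ∫ v, db XX v * v⁻¹ = -(Real.pi : ℂ) := by
      rw [← h2]
      unfold ht
      simp
    have hi1 : Integrable fun v : ℂ => (R : ℂ) * (f (p + R • v) * db XX v) := by
      refine (hfc.integrable_of_hasCompactSupport ?_).const_mul _
      exact dbXX_compact.mul_left
    have hi2 : Integrable fun v : ℂ => db XX v * v⁻¹ := by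
      have := pot_integrable dbXX_cont dbXX_compact 0
      refine this.neg.congr (Eventually.of_forall fun v => ?_)
      simp
    have h4 : -((R : ℂ) * ∫ v, f (p + R • v) * db XX v) - Real.pi * c =
        -∫ v, ((R : ℂ) * (f (p + R • v) * db XX v) - c * (db XX v * v⁻¹)) := by
      rw [integral_sub hi1 (hi2.const_mul c), integral_const_mul, integral_const_mul, h3]
      ring
    rw [h4, norm_neg]
    have h5 : ‖∫ v, ((R : ℂ) * (f (p + R • v) * db XX v) - c * (db XX v * v⁻¹))‖ ≤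
        ∫ v, η' * ‖db XX v‖ := by
      refine norm_integral_le_of_norm_le
        ((dbXX_cont.integrable_of_hasCompactSupport dbXX_compact).norm.const_mul _)
        (Eventually.of_forall fun v => ?_)
      by_cases hv : ‖v‖ < 1
      · rw [dbXX_small hv]
        simp
      · push Not at hv
        have hv0 : v ≠ 0 := by rw [← norm_pos_iff]; linarith
        have h6 : (R : ℂ) * (f (p + R • v) * db XX v) - c * (db XX v * v⁻¹) =
            (((R : ℂ) * v * f (p + R • v) - c) * v⁻¹) * db XX v := by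
          field_simp
        rw [h6, norm_mul]
        refine mul_le_mul_of_nonneg_right ?_ (norm_nonneg _)
        rw [norm_mul, norm_inv]
        calc ‖(R : ℂ) * v * f (p + R • v) - c‖ * ‖v‖⁻¹ ≤ η' * 1 := by
              gcongr
              · exact (hfar v hv).le
              · exact inv_le_one_of_one_le₀ hv
          _ = η' := mul_one _
    refine h5.trans ?_
    rw [integral_const_mul, ← hI]
    exact hη'2

/-- potentials are bounded by the supremum and the integral -/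
theorem pot_le_L1 : ∃ K : ℝ, 0 ≤ K ∧ ∀ (φ : ℂ → ℂ) (M : ℝ), Integrable φ → (∀ w, ‖φ w‖ ≤ M) →
    ∀ z, ‖pot φ z‖ ≤ K * M + ∫ w, ‖φ w‖ := by
  have hK := Pool.Agent.H761R2.SV.integrableOn_norm_inv 1
  refine ⟨∫ u in ball (0 : ℂ) 1, ‖u‖⁻¹, integral_nonneg fun u => by positivity, ?_⟩
  intro φ M hφ hM z
  have hM0 : 0 ≤ M := (norm_nonneg _).trans (hM 0)
  have h1 : Integrable ((ball (0 : ℂ) 1).indicator fun u : ℂ => ‖u‖⁻¹) :=
    (integrable_indicator_iff measurableSet_ball).2 hK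
  have h2 : Integrable (fun w : ℂ => (ball (0 : ℂ) 1).indicator (fun u : ℂ => ‖u‖⁻¹) (z - w)) :=
    h1.comp_sub_left z
  have h3 : ∫ w, (ball (0 : ℂ) 1).indicator (fun u : ℂ => ‖u‖⁻¹) (z - w) =
      ∫ u in ball (0 : ℂ) 1, ‖u‖⁻¹ := by
    rw [integral_sub_left_eq_self (fun w => (ball (0 : ℂ) 1).indicator (fun u : ℂ => ‖u‖⁻¹) w),
      integral_indicator measurableSet_ball]
  have h4 : ‖pot φ z‖ ≤ ∫ w, (M * (ball (0 : ℂ) 1).indicator (fun u : ℂ => ‖u‖⁻¹) (z - w) +
      ‖φ w‖) := by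
    unfold pot
    refine norm_integral_le_of_norm_le ((h2.const_mul M).add hφ.norm)
      (Eventually.of_forall fun w => ?_)
    rw [norm_mul, norm_inv]
    by_cases hw : z - w ∈ ball (0 : ℂ) 1
    · rw [indicator_of_mem hw]
      have h5 : ‖φ w‖ * ‖z - w‖⁻¹ ≤ M * ‖z - w‖⁻¹ :=
        mul_le_mul_of_nonneg_right (hM w) (by positivity)
      have := norm_nonneg (φ w)
      linarith
    · rw [indicator_of_notMem hw, mul_zero, zero_add]
      rw [mem_ball_zero_iff, not_lt] at hw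
      exact mul_le_of_le_one_right (norm_nonneg _) (inv_le_one_of_one_le₀ hw)
  refine h4.trans (le_of_eq ?_)
  rw [integral_add (h2.const_mul M) hφ.norm, integral_const_mul, h3, mul_comm]

end Pool.Agent.Q89.TC
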