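import Pool.Agent.Q89.TC.B
import Pool.Agent.Q89.TC.C

/-!
# Project TC, job PGF: charges near a polygon with bounded density, bounded potential and large
total charge
-/

set_option autoImplicit false

namespace Pool.Agent.Q89.TC

open MeasureTheory Set Metric Filter Topology
open scoped ComplexConjugate
open Pool.Agent.H352R3.SA (Den pot pot_integrable)
open Pool.Agent.Y271.RO (db pk cost ht pw)
open Pool.Agent.Q130.TC (plen NearPol)

/-- the polygon -/
def Pg (z : ℕ → ℂ) (n : ℕ) : Set ℂ :=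
  ⋃ i ∈ Finset.range n, (fun t : ℝ => z i + t * (z (i + 1) - z i)) '' Icc 0 1

theorem Pg_compact (z : ℕ → ℂ) (n : ℕ) : IsCompact (Pg z n) := by
  apply (Finset.range n).isCompact_biUnion
  intro i _
  exact isCompact_Icc.image (by fun_prop)

theorem mem_Pg {z : ℕ → ℂ} {n i : ℕ} (hi : i < n) {t : ℝ} (h0 : 0 ≤ t) (h1 : t ≤ 1) :
    z i + t * (z (i + 1) - z i) ∈ Pg z n := by
  unfold Pg
  simp only [mem_iUnion]
  exact ⟨i, Finset.mem_range.2 hi, t, ⟨h0, h1⟩, rfl⟩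

theorem exists_of_mem_Pg {z : ℕ → ℂ} {n : ℕ} {y : ℂ} (hy : y ∈ Pg z n) :
    ∃ i < n, ∃ t : ℝ, 0 ≤ t ∧ t ≤ 1 ∧ y = z i + t * (z (i + 1) - z i) := by
  unfold Pg at hy
  simp only [mem_iUnion] at hy
  obtain ⟨i, hi, t, ht, h⟩ := hy
  exact ⟨i, Finset.mem_range.1 hi, t, ht.1, ht.2, h.symm⟩

theorem Pg_nonempty {z : ℕ → ℂ} {n : ℕ} (hn : 0 < n) : (Pg z n).Nonempty :=
  ⟨_, mem_Pg hn le_rfl zero_le_one⟩

theorem norm_Pg {z : ℕ → ℂ} {n : ℕ} {y : ℂ} (hy : y ∈ Pg z n) : ‖y - z 0‖ ≤ plen z n := by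
  obtain ⟨i, hi, t, h0, h1, rfl⟩ := exists_of_mem_Pg hy
  exact norm_pt z hi h0 h1

theorem closest {z : ℕ → ℂ} {n : ℕ} (hn : 0 < n) (w : ℂ) :
    ∃ y ∈ Pg z n, infDist w (Pg z n) = ‖w - y‖ := by
  obtain ⟨y, hy, h⟩ := (Pg_compact z n).exists_infDist_eq_dist (Pg_nonempty hn) w
  exact ⟨y, hy, by rw [h, dist_eq_norm]⟩

theorem norm_le_infDist {z : ℕ → ℂ} {n : ℕ} (hn : 0 < n) (w : ℂ) :
    ‖w - z 0‖ ≤ infDist w (Pg z n) + plen z n := by
  obtain ⟨y, hy, h⟩ := closest (z := z) hn w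
  rw [h]
  have h1 : w - z 0 = (w - y) + (y - z 0) := by ring
  rw [h1]
  exact (norm_add_le _ _).trans (add_le_add le_rfl (norm_Pg hy))

theorem nearPol_of {z : ℕ → ℂ} {n : ℕ} (hn : 0 < n) {w : ℂ} {ρ : ℝ}
    (h : infDist w (Pg z n) ≤ ρ) : NearPol z n ρ w := by
  obtain ⟨y, hy, h1⟩ := closest (z := z) hn w
  obtain ⟨i, hi, t, h0, h2, rfl⟩ := exists_of_mem_Pg hy
  exact ⟨i, hi, t, h0, h2, by rw [← h1]; exact h⟩

/-- the density far from the polygon -/
theorem cost_le {ε : ℝ} (z : ℕ → ℂ) (n : ℕ) (w : ℂ) (hw : 0 < infDist w (Pg z n)) :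
    cost (fun y => pk ε (y - w)) z n ≤
      plen z n * (ε ^ 2 / (Real.pi * infDist w (Pg z n) ^ 4)) := by
  obtain ⟨δ, hδ⟩ : ∃ δ : ℝ, δ = infDist w (Pg z n) := ⟨_, rfl⟩
  rw [← hδ] at hw ⊢
  unfold cost
  have h1 : plen z n * (ε ^ 2 / (Real.pi * δ ^ 4)) =
      ∑ j ∈ Finset.range n, ‖z (j + 1) - z j‖ * (ε ^ 2 / (Real.pi * δ ^ 4)) := by
    rw [← Finset.sum_mul]
    rfl
  rw [h1]
  refine Finset.sum_le_sum fun j hj => ?_
  refine mul_le_mul_of_nonneg_left ?_ (norm_nonneg _)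
  have h2 := intervalIntegral.norm_integral_le_of_norm_le_const (a := (0:ℝ)) (b := 1)
    (f := fun t : ℝ => pk ε (z j + t * (z (j + 1) - z j) - w)) (C := ε ^ 2 / (Real.pi * δ ^ 4))
    (fun t ht => ?_)
  · rw [sub_zero, abs_one, mul_one] at h2
    exact (le_abs_self _).trans h2
  · rw [uIoc_of_le zero_le_one] at ht
    have h3 : δ ≤ ‖z j + t * (z (j + 1) - z j) - w‖ := by
      rw [hδ, norm_sub_rev, ← dist_eq_norm]
      exact infDist_le_dist_of_mem (mem_Pg (Finset.mem_range.1 hj) ht.1.le ht.2)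
    rw [Real.norm_of_nonneg (Pool.Agent.Y433.RO.pk_nonneg ε _)]
    unfold pk
    have hpi := Real.pi_pos
    have h4 : δ ^ 4 ≤ (‖z j + t * (z (j + 1) - z j) - w‖ ^ 2 + ε ^ 2) ^ 2 := by
      have h5 : δ ^ 4 = (δ ^ 2) ^ 2 := by ring
      rw [h5]
      have h6 : δ ^ 2 ≤ ‖z j + t * (z (j + 1) - z j) - w‖ ^ 2 := by gcongr
      have h7 := sq_nonneg ε
      gcongr
      linarith
    gcongr

/-- the cut-off near the polygon -/
noncomputable def psi (z : ℕ → ℂ) (n : ℕ) (ρ : ℝ) (w : ℂ) : ℝ :=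
  max 0 (min 1 (2 - 2 * infDist w (Pg z n) / ρ))

theorem psi_cont (z : ℕ → ℂ) (n : ℕ) (ρ : ℝ) : Continuous (psi z n ρ) := by
  unfold psi
  have h := continuous_infDist_pt (Pg z n)
  exact continuous_const.max (continuous_const.min (continuous_const.sub
    ((continuous_const.mul h).div_const ρ)))

theorem psi_nonneg (z : ℕ → ℂ) (n : ℕ) (ρ : ℝ) (w : ℂ) : 0 ≤ psi z n ρ w := le_max_left _ _

theorem psi_le_one (z : ℕ → ℂ) (n : ℕ) (ρ : ℝ) (w : ℂ) : psi z n ρ w ≤ 1 :=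
  max_le zero_le_one (min_le_left _ _)

theorem psi_one {z : ℕ → ℂ} {n : ℕ} {ρ : ℝ} (hρ : 0 < ρ) {w : ℂ}
    (h : infDist w (Pg z n) ≤ ρ / 2) : psi z n ρ w = 1 := by
  unfold psi
  have h1 : 1 ≤ 2 - 2 * infDist w (Pg z n) / ρ := by
    have : 2 * infDist w (Pg z n) / ρ ≤ 1 := by
      rw [div_le_one hρ]; linarith
    linarith
  rw [min_eq_left h1]
  exact max_eq_right zero_le_one

theorem lt_of_psi {z : ℕ → ℂ} {n : ℕ} {ρ : ℝ} (hρ : 0 < ρ) {w : ℂ}
    (h : psi z n ρ w ≠ 0) : infDist w (Pg z n) < ρ := by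
  by_contra h1
  push Not at h1
  apply h
  unfold psi
  have h2 : 2 - 2 * infDist w (Pg z n) / ρ ≤ 0 := by
    have : 2 ≤ 2 * infDist w (Pg z n) / ρ := by
      rw [le_div_iff₀ hρ]; linarith
    linarith
  exact max_eq_left ((min_le_right _ _).trans h2)

theorem psi_support {z : ℕ → ℂ} {n : ℕ} (hn : 0 < n) {ρ : ℝ} (hρ : 0 < ρ) {w : ℂ}
    (h : psi z n ρ w ≠ 0) : ‖w - z 0‖ ≤ ρ + plen z n := by
  have h1 := lt_of_psi hρ h
  have h2 := norm_le_infDist (z := z) hn w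
  linarith

theorem psi_compact {z : ℕ → ℂ} {n : ℕ} (hn : 0 < n) {ρ : ℝ} (hρ : 0 < ρ) :
    HasCompactSupport (psi z n ρ) := by
  refine HasCompactSupport.of_support_subset_isCompact
    (isCompact_closedBall (z 0) (ρ + plen z n)) ?_
  intro w hw
  rw [mem_closedBall, dist_eq_norm]
  exact psi_support hn hρ hw

/-- the integral of the density -/
theorem int_A {z : ℕ → ℂ} {n : ℕ} (hn : 0 < n) {ρ : ℝ} (hρ : 0 < ρ) {ε : ℝ} (hε : 0 < ε) :
    ∫ w, psi z n ρ w * cost (fun y => pk ε (y - w)) z n ≤ plen z n := by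
  have hi : Integrable (psi z n ρ) :=
    (psi_cont z n ρ).integrable_of_hasCompactSupport (psi_compact hn hρ)
  obtain ⟨_, _, h⟩ := Pool.Agent.Y433.RO.main (psi z n ρ) hi (psi_nonneg z n ρ) ε hε z n
  rw [h]
  unfold cost plen
  refine Finset.sum_le_sum fun j _ => ?_
  have h2 := intervalIntegral.norm_integral_le_of_norm_le_const (a := (0:ℝ)) (b := 1)
    (f := fun t : ℝ => pw (psi z n ρ) ε (z j + t * (z (j + 1) - z j))) (C := 1)
    (fun t _ => ?_)
  · rw [sub_zero, abs_one, mul_one] at h2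
    have h3 := (le_abs_self _).trans h2
    calc ‖z (j + 1) - z j‖ * ∫ t in (0:ℝ)..1, pw (psi z n ρ) ε (z j + t * (z (j + 1) - z j))
        ≤ ‖z (j + 1) - z j‖ * 1 := mul_le_mul_of_nonneg_left h3 (norm_nonneg _)
      _ = _ := mul_one _
  · have hpi : Integrable (fun y : ℂ => pk ε (z j + t * (z (j + 1) - z j) - y)) :=
      (Pool.Agent.Y812.RO.PCA.pk_integrable hε).comp_sub_left _
    have h4 : ∫ y : ℂ, pk ε (z j + t * (z (j + 1) - z j) - y) = 1 := by
      rw [integral_sub_left_eq_self (fun y => pk ε y)]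
      exact Pool.Agent.Y812.RO.PCA.pk_int hε
    unfold pw
    rw [← h4]
    refine norm_integral_le_of_norm_le hpi (Eventually.of_forall fun y => ?_)
    rw [norm_mul, Real.norm_of_nonneg (psi_nonneg _ _ _ _),
      Real.norm_of_nonneg (Pool.Agent.Y433.RO.pk_nonneg ε _)]
    exact mul_le_of_le_one_left (Pool.Agent.Y433.RO.pk_nonneg ε _) (psi_le_one _ _ _ _)

/-- the remainder -/
theorem rem_le {z : ℕ → ℂ} {n : ℕ} (hn : 0 < n) (hl : 0 < plen z n) {ρ : ℝ} (hρ : 0 < ρ)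
    (hρl : ρ ≤ plen z n) : ∃ S : ℝ, 0 ≤ S ∧ ∀ ε : ℝ, 0 < ε → ε ≤ plen z n → ∀ R : ℝ,
      2 * plen z n ≤ R → ∀ w, ‖(((cut R (z 0) w - psi z n ρ w : ℝ)) : ℂ) * db (fq ε z n) w‖ ≤
        ε ^ 2 * S * (1 + ‖w - z 0‖) ^ (-3 : ℝ) := by
  obtain ⟨l, hll⟩ : ∃ l : ℝ, l = plen z n := ⟨_, rfl⟩
  rw [← hll] at hl hρl
  obtain ⟨K, hK⟩ : ∃ K : ℝ, K = 1 + 6 * l / ρ := ⟨_, rfl⟩
  have hK1 : 1 ≤ K := by
    rw [hK]
    have : 0 ≤ 6 * l / ρ := by positivity
    linarith
  obtain ⟨m, hm⟩ : ∃ m : ℝ, m = min 1 (2 * l) := ⟨_, rfl⟩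
  have hm0 : 0 < m := by rw [hm]; positivity
  have hm1 : m ≤ 1 := by rw [hm]; exact min_le_left _ _
  have hm2 : m ≤ 2 * l := by rw [hm]; exact min_le_right _ _
  refine ⟨l * K ^ 4 / (2 * m ^ 3), by positivity, ?_⟩
  intro ε hε hεl R hR w
  rw [← hll] at hεl hR
  obtain ⟨u, hu⟩ : ∃ u : ℝ, u = ‖w - z 0‖ := ⟨_, rfl⟩
  have hu0 : 0 ≤ u := hu ▸ norm_nonneg _
  rw [← hu]
  have hRp : 0 < R := by linarith
  have hpos : 0 ≤ ε ^ 2 * (l * K ^ 4 / (2 * m ^ 3)) * (1 + u) ^ (-3 : ℝ) := by positivity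
  by_cases hw : infDist w (Pg z n) ≤ ρ / 2
  · have h1 := psi_one hρ hw
    have h2 : cut R (z 0) w = 1 := by
      apply cut_one hRp
      have h3 := psi_support hn hρ (w := w) (by rw [h1]; exact one_ne_zero)
      rw [← hll] at h3
      linarith
    rw [h1, h2]
    simpa using hpos
  · push Not at hw
    obtain ⟨δ, hδ⟩ : ∃ δ : ℝ, δ = infDist w (Pg z n) := ⟨_, rfl⟩
    rw [← hδ] at hw
    have hδ0 : 0 < δ := by linarith
    have h1 : |cut R (z 0) w - psi z n ρ w| ≤ 1 := by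
      rw [abs_le]
      have := cut_nonneg R (z 0) w
      have := cut_le_one R (z 0) w
      have := psi_nonneg z n ρ w
      have := psi_le_one z n ρ w
      constructor <;> linarith
    have h2 : ‖db (fq ε z n) w‖ ≤ Real.pi / 2 * (u + 2 * l) *
        (l * (ε ^ 2 / (Real.pi * δ ^ 4))) := by
      refine (norm_db_fq hε z n w).trans ?_
      have h3 := qq_le hε z n (by rw [← hll]; exact hεl) w
      have h4 := cost_le (ε := ε) z n w (by rw [← hδ]; exact hδ0)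
      rw [← hll, ← hu] at h3
      rw [← hll, ← hδ] at h4
      have hpi := Real.pi_pos
      have h5 : 0 ≤ cost (fun y => pk ε (y - w)) z n := by
        unfold cost
        exact Finset.sum_nonneg fun j _ => mul_nonneg (norm_nonneg _)
          (Pool.Agent.Y433.RO.seg_nonneg _ _ _ _)
      gcongr
    have h6 : u + 2 * l ≤ K * δ := by
      have h7 := norm_le_infDist (z := z) hn w
      rw [← hu, ← hδ, ← hll] at h7
      have h8 : 3 * l ≤ 6 * l / ρ * δ := by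
        rw [div_mul_eq_mul_div, le_div_iff₀ hρ]
        nlinarith
      rw [hK]
      linarith
    have h9 : m * (1 + u) ≤ u + 2 * l := by nlinarith
    have hpi := Real.pi_pos
    have h10 : (1 + u) ^ (-3 : ℝ) = ((1 + u) ^ 3)⁻¹ := by
      rw [Real.rpow_neg (by positivity)]
      congr 1
      exact_mod_cast Real.rpow_natCast (1 + u) 3
    rw [h10, norm_mul, Complex.norm_real, Real.norm_eq_abs]
    calc |cut R (z 0) w - psi z n ρ w| * ‖db (fq ε z n) w‖
        ≤ 1 * (Real.pi / 2 * (u + 2 * l) * (l * (ε ^ 2 / (Real.pi * δ ^ 4)))) := by gcongr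
      _ = ε ^ 2 * l / 2 * ((u + 2 * l) / δ ^ 4) := by
          field_simp
      _ ≤ ε ^ 2 * l / 2 * (K ^ 4 / (m ^ 3 * (1 + u) ^ 3)) := by
          refine mul_le_mul_of_nonneg_left ?_ (by positivity)
          rw [div_le_div_iff₀ (by positivity) (by positivity)]
          calc (u + 2 * l) * (m ^ 3 * (1 + u) ^ 3) = (u + 2 * l) * (m * (1 + u)) ^ 3 := by ring
            _ ≤ (u + 2 * l) * (u + 2 * l) ^ 3 := by gcongr
            _ = (u + 2 * l) ^ 4 := by ring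
            _ ≤ (K * δ) ^ 4 := by gcongr
            _ = K ^ 4 * δ ^ 4 := by ring
      _ = ε ^ 2 * (l * K ^ 4 / (2 * m ^ 3)) * ((1 + u) ^ 3)⁻¹ := by
          field_simp

theorem pgf : Pool.Agent.Q130.TC.S_PGF := by
  intro C₁ hC₁
  obtain ⟨K0, hK00, hK0⟩ := pot_le_L1
  refine ⟨64 * C₁ + 8, by linarith, ?_⟩
  intro z n d hd hdn hlen ρ₀ hρ₀
  obtain ⟨l, hll⟩ : ∃ l : ℝ, l = plen z n := ⟨_, rfl⟩
  have hDl := norm_sub_le_plen z n
  have hl : 0 < plen z n := by linarith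
  have hn : 0 < n := by
    rcases Nat.eq_zero_or_pos n with h | h
    · rw [h] at hl
      simp [plen] at hl
    · exact h
  obtain ⟨ρ, hρ, hρ0, hρl⟩ : ∃ ρ : ℝ, 0 < ρ ∧ ρ ≤ ρ₀ ∧ ρ ≤ plen z n :=
    ⟨min ρ₀ (plen z n), lt_min hρ₀ hl, min_le_left _ _, min_le_right _ _⟩
  obtain ⟨S, hS0, hS⟩ := rem_le hn hl hρ hρl
  have hint3 : Integrable (fun w : ℂ => (1 + ‖w - z 0‖) ^ (-3 : ℝ)) := by
    have h1 : Integrable (fun w : ℂ => (1 + ‖w‖) ^ (-3 : ℝ)) := by
      apply integrable_one_add_norm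
      rw [Complex.finrank_real_complex]
      norm_num
    exact h1.comp_sub_right (z 0)
  obtain ⟨I3, hI3⟩ : ∃ I3 : ℝ, I3 = ∫ w : ℂ, (1 + ‖w - z 0‖) ^ (-3 : ℝ) := ⟨_, rfl⟩
  have hI30 : 0 ≤ I3 := by rw [hI3]; exact integral_nonneg fun _ => by positivity
  obtain ⟨η, hη0, hηd, hηd2⟩ : ∃ η : ℝ, 0 < η ∧ η ≤ d ∧ η ≤ Real.pi * d ^ 2 / 32 :=
    ⟨min d (Real.pi * d ^ 2 / 32), by positivity, min_le_left _ _, min_le_right _ _⟩
  -- the parameter
  obtain ⟨ε, hε, hεl, hεS⟩ : ∃ ε : ℝ, 0 < ε ∧ ε ≤ plen z n ∧ ε ^ 2 * S * (K0 + I3) ≤ η := by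
    obtain ⟨T, hT⟩ : ∃ T : ℝ, T = S * (K0 + I3) + 1 := ⟨_, rfl⟩
    have hT0 : 0 < T := by rw [hT]; positivity
    refine ⟨min (min 1 (plen z n)) (η / T), by positivity,
      (min_le_left _ _).trans (min_le_right _ _), ?_⟩
    have h1 : min (min 1 (plen z n)) (η / T) ≤ 1 := (min_le_left _ _).trans (min_le_left _ _)
    have h2 : min (min 1 (plen z n)) (η / T) ≤ η / T := min_le_right _ _
    have h3 : 0 < min (min 1 (plen z n)) (η / T) := by positivity
    obtain ⟨e, he⟩ : ∃ e : ℝ, e = min (min 1 (plen z n)) (η / T) := ⟨_, rfl⟩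
    rw [← he] at h1 h2 h3 ⊢
    calc e ^ 2 * S * (K0 + I3) = e * (e * (S * (K0 + I3))) := by ring
      _ ≤ 1 * (η / T * T) := by
        gcongr
        rw [hT]; linarith
      _ = η := by field_simp
  obtain ⟨f, hf⟩ : ∃ f : ℂ → ℂ, f = fq ε z n := ⟨_, rfl⟩
  have hfC : ContDiff ℝ 1 f := hf ▸ fq_contDiff hε z n
  have hfb : ∀ w, ‖f w‖ ≤ 20 * plen z n := by rw [hf]; exact fq_le hε z n hεl
  have hft : Tendsto (fun w => (w - z 0) * f w) (cocompact ℂ) (𝓝 ((z n - z 0) ^ 2 / 8)) := by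
    rw [hf]; exact fq_tendsto hε z n hl
  obtain ⟨R₀, hR₀, hmain⟩ := cut_main hfC (z 0) ((z n - z 0) ^ 2 / 8) (20 * plen z n) hfb hft η hη0
  obtain ⟨R, hR1, hR2⟩ : ∃ R : ℝ, R₀ ≤ R ∧ 2 * plen z n ≤ R :=
    ⟨max R₀ (2 * plen z n), le_max_left _ _, le_max_right _ _⟩
  have hRp : 0 < R := by linarith
  obtain ⟨hpotR, hchR⟩ := hmain R hR1
  have hdbc : Continuous (db f) := Pool.Agent.Y839.RO.db_cont hfC
  -- the three functions
  have hψc : Continuous (fun w => ((psi z n ρ w : ℝ) : ℂ)) :=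
    Complex.continuous_ofReal.comp (psi_cont z n ρ)
  have hψs : HasCompactSupport (fun w => ((psi z n ρ w : ℝ) : ℂ)) :=
    (psi_compact hn hρ).comp_left (g := fun x : ℝ => (x : ℂ)) (by simp)
  have hcc : Continuous (fun w => ((cut R (z 0) w : ℝ) : ℂ)) :=
    Complex.continuous_ofReal.comp (cut_continuous R (z 0))
  have hg1c : Continuous (fun w => ((psi z n ρ w : ℝ) : ℂ) * db f w) := hψc.mul hdbc
  have hg1s : HasCompactSupport (fun w => ((psi z n ρ w : ℝ) : ℂ) * db f w) := hψs.mul_right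
  have hg2c : Continuous (fun w => ((cut R (z 0) w : ℝ) : ℂ) * db f w) := hcc.mul hdbc
  have hg2s : HasCompactSupport (fun w => ((cut R (z 0) w : ℝ) : ℂ) * db f w) :=
    (cutC_compact hRp (z 0)).mul_right
  have hg3c : Continuous (fun w => (((cut R (z 0) w - psi z n ρ w : ℝ)) : ℂ) * db f w) :=
    (Complex.continuous_ofReal.comp ((cut_continuous R (z 0)).sub (psi_cont z n ρ))).mul hdbc
  have hg3e : (fun w => (((cut R (z 0) w - psi z n ρ w : ℝ)) : ℂ) * db f w) = fun w =>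
      ((cut R (z 0) w : ℝ) : ℂ) * db f w - ((psi z n ρ w : ℝ) : ℂ) * db f w := by
    funext w
    push_cast
    ring
  have hg3s : HasCompactSupport (fun w => (((cut R (z 0) w - psi z n ρ w : ℝ)) : ℂ) * db f w) := by
    rw [hg3e]
    exact hg2s.sub hg1s
  have hi1 := hg1c.integrable_of_hasCompactSupport (μ := volume) hg1s
  have hi2 := hg2c.integrable_of_hasCompactSupport (μ := volume) hg2s
  have hi3 := hg3c.integrable_of_hasCompactSupport (μ := volume) hg3s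
  have hb3 : ∀ w, ‖(((cut R (z 0) w - psi z n ρ w : ℝ)) : ℂ) * db f w‖ ≤
      ε ^ 2 * S * (1 + ‖w - z 0‖) ^ (-3 : ℝ) := by
    rw [hf]
    exact hS ε hε hεl R hR2
  have hb3' : ∀ w, ‖(((cut R (z 0) w - psi z n ρ w : ℝ)) : ℂ) * db f w‖ ≤ ε ^ 2 * S := by
    intro w
    refine (hb3 w).trans ?_
    refine mul_le_of_le_one_right (by positivity) ?_
    apply Real.rpow_le_one_of_one_le_of_nonpos
    · have := norm_nonneg (w - z 0)
      linarith
    · norm_num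
  have hL1 : ∫ w, ‖(((cut R (z 0) w - psi z n ρ w : ℝ)) : ℂ) * db f w‖ ≤ ε ^ 2 * S * I3 := by
    rw [hI3, ← integral_const_mul]
    exact integral_mono hi3.norm (hint3.const_mul _) hb3
  have hpot3 : ∀ y, ‖pot (fun w => (((cut R (z 0) w - psi z n ρ w : ℝ)) : ℂ) * db f w) y‖ ≤ η := by
    intro y
    have h1 := hK0 _ _ hi3 hb3' y
    have h2 : ε ^ 2 * S * (K0 + I3) = K0 * (ε ^ 2 * S) + ε ^ 2 * S * I3 := by ring
    linarith
  have hch3 : ‖∫ w, (((cut R (z 0) w - psi z n ρ w : ℝ)) : ℂ) * db f w‖ ≤ η := by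
    have h1 := norm_integral_le_integral_norm
      (fun w => (((cut R (z 0) w - psi z n ρ w : ℝ)) : ℂ) * db f w) (μ := volume)
    have h2 : ε ^ 2 * S * (K0 + I3) = K0 * (ε ^ 2 * S) + ε ^ 2 * S * I3 := by ring
    have h3 : 0 ≤ K0 * (ε ^ 2 * S) := by positivity
    linarith
  -- the potential and the charge of the near part
  have hpot1 : ∀ y, ‖pot (fun w => ((psi z n ρ w : ℝ) : ℂ) * db f w) y‖ ≤
      Real.pi * (20 * plen z n) + 2 * d := by
    intro y
    have h1 := hpotR y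
    have h2 := hpot3 y
    have h3 : pot (fun w => ((psi z n ρ w : ℝ) : ℂ) * db f w) y =
        pot (fun w => ((cut R (z 0) w : ℝ) : ℂ) * db f w) y -
        pot (fun w => (((cut R (z 0) w - psi z n ρ w : ℝ)) : ℂ) * db f w) y := by
      have h4 := pot_add hg1c hg1s hg3c hg3s y
      have h5 : (fun w => ((psi z n ρ w : ℝ) : ℂ) * db f w +
          (((cut R (z 0) w - psi z n ρ w : ℝ)) : ℂ) * db f w) =
          fun w => ((cut R (z 0) w : ℝ) : ℂ) * db f w := by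
        funext w
        push_cast
        ring
      rw [h5] at h4
      rw [h4]
      ring
    rw [h3]
    exact (norm_sub_le _ _).trans (by linarith)
  have hch1 : Real.pi * d ^ 2 / 16 ≤ ‖∫ w, ((psi z n ρ w : ℝ) : ℂ) * db f w‖ := by
    have h3 : ∫ w, ((psi z n ρ w : ℝ) : ℂ) * db f w =
        (∫ w, ((cut R (z 0) w : ℝ) : ℂ) * db f w) -
        ∫ w, (((cut R (z 0) w - psi z n ρ w : ℝ)) : ℂ) * db f w := by
      rw [← integral_sub hi2 hi3]
      congr 1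
      funext w
      push_cast
      ring
    have h4 : (Real.pi : ℂ) * ((z n - z 0) ^ 2 / 8) =
        (∫ w, ((psi z n ρ w : ℝ) : ℂ) * db f w) - ((∫ w, ((cut R (z 0) w : ℝ) : ℂ) * db f w) -
          Real.pi * ((z n - z 0) ^ 2 / 8)) +
        ∫ w, (((cut R (z 0) w - psi z n ρ w : ℝ)) : ℂ) * db f w := by
      rw [h3]
      ring
    have h5 : ‖(Real.pi : ℂ) * ((z n - z 0) ^ 2 / 8)‖ ≤
        ‖∫ w, ((psi z n ρ w : ℝ) : ℂ) * db f w‖ + η + η := by
      rw [h4]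
      exact (norm_add_le _ _).trans (add_le_add ((norm_sub_le _ _).trans
        (add_le_add le_rfl hchR)) hch3)
    have h6 : ‖(Real.pi : ℂ) * ((z n - z 0) ^ 2 / 8)‖ = Real.pi * (‖z n - z 0‖ ^ 2 / 8) := by
      rw [norm_mul, Complex.norm_real, Real.norm_of_nonneg Real.pi_pos.le, norm_div, norm_pow]
      simp
    have h7 : d ^ 2 ≤ ‖z n - z 0‖ ^ 2 := by gcongr
    have hpi := Real.pi_pos
    have h8 : Real.pi * (d ^ 2 / 8) ≤ Real.pi * (‖z n - z 0‖ ^ 2 / 8) := by gcongr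
    have h9 : Real.pi * (d ^ 2 / 8) = Real.pi * d ^ 2 / 8 := by ring
    linarith
  have hpi := Real.pi_pos
  have hpi3 := Real.pi_gt_three
  have hpi4 := Real.pi_lt_d2
  have hcost0 : ∀ w, 0 ≤ cost (fun y => pk ε (y - w)) z n := by
    intro w
    unfold cost
    exact Finset.sum_nonneg fun j _ => mul_nonneg (norm_nonneg _)
      (Pool.Agent.Y433.RO.seg_nonneg _ _ _ _)
  have hcostc : Continuous (fun w => cost (fun y => pk ε (y - w)) z n) := by
    unfold cost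
    refine continuous_finsetSum _ fun j _ => continuous_const.mul ?_
    exact Pool.Agent.Y433.RO.seg_cont hε _ _
  refine ⟨fun w => psi z n ρ w * cost (fun y => pk ε (y - w)) z n,
    fun w => (((d⁻¹ : ℝ)) : ℂ) * (((psi z n ρ w : ℝ) : ℂ) * db f w), ?_, ?_, ?_, ?_, ?_, ?_, ?_, ?_⟩
  · exact ⟨(psi_cont z n ρ).mul hcostc, (psi_compact hn hρ).mul_right,
      fun w => mul_nonneg (psi_nonneg _ _ _ _) (hcost0 w)⟩
  · exact continuous_const.mul hg1c
  · exact hg1s.mul_left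
  · intro w hw
    have h1 : psi z n ρ w ≠ 0 := fun h => hw (by simp [h])
    exact nearPol_of hn ((lt_of_psi hρ h1).le.trans hρ0)
  · refine (int_A hn hρ hε).trans (hlen.trans ?_)
    nlinarith
  · intro w
    by_cases h1 : psi z n ρ w = 0
    · simp [h1]
    · have h2 := psi_support hn hρ h1
      have h3 := norm_db_fq hε z n w
      have h4 := qq_le hε z n hεl w
      rw [norm_mul, norm_mul, Complex.norm_real, Complex.norm_real,
        Real.norm_of_nonneg (by positivity : (0:ℝ) ≤ d⁻¹),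
        Real.norm_of_nonneg (psi_nonneg _ _ _ _), hf]
      have h5 : ‖db (fq ε z n) w‖ ≤ Real.pi / 2 * (4 * plen z n) *
          cost (fun y => pk ε (y - w)) z n := by
        refine h3.trans ?_
        have h6 := hcost0 w
        gcongr
        linarith
      have h7 := psi_nonneg z n ρ w
      have h8 := hcost0 w
      calc d⁻¹ * (psi z n ρ w * ‖db (fq ε z n) w‖)
          ≤ d⁻¹ * (psi z n ρ w * (Real.pi / 2 * (4 * (C₁ * d)) *
            cost (fun y => pk ε (y - w)) z n)) := by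
            have h9 : ‖db (fq ε z n) w‖ ≤ Real.pi / 2 * (4 * (C₁ * d)) *
                cost (fun y => pk ε (y - w)) z n := by
              refine h5.trans ?_
              gcongr
            gcongr
        _ = 2 * Real.pi * C₁ * (psi z n ρ w * cost (fun y => pk ε (y - w)) z n) := by
            field_simp
            ring
        _ ≤ (64 * C₁ + 8) * (psi z n ρ w * cost (fun y => pk ε (y - w)) z n) := by
            have h10 : 2 * Real.pi * C₁ ≤ 64 * C₁ + 8 := by nlinarith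
            exact mul_le_mul_of_nonneg_right h10 (mul_nonneg h7 h8)
  · intro y
    have h1 : pot (fun w => (((d⁻¹ : ℝ)) : ℂ) * (((psi z n ρ w : ℝ) : ℂ) * db f w)) y =
        (((d⁻¹ : ℝ)) : ℂ) * pot (fun w => ((psi z n ρ w : ℝ) : ℂ) * db f w) y := by
      unfold pot
      rw [← integral_const_mul]
      congr 1
      funext w
      ring
    rw [h1, norm_mul, Complex.norm_real, Real.norm_of_nonneg (by positivity)]
    have h2 := hpot1 y
    calc d⁻¹ * ‖pot (fun w => ((psi z n ρ w : ℝ) : ℂ) * db f w) y‖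
        ≤ d⁻¹ * (Real.pi * (20 * (C₁ * d)) + 2 * d) := by
          refine mul_le_mul_of_nonneg_left (h2.trans ?_) (by positivity)
          gcongr
      _ = 20 * Real.pi * C₁ + 2 := by
          field_simp
      _ ≤ 64 * C₁ + 8 := by nlinarith
  · rw [integral_const_mul, norm_mul, Complex.norm_real, Real.norm_of_nonneg (by positivity)]
    have h1 : d⁻¹ * (Real.pi * d ^ 2 / 16) ≤
        d⁻¹ * ‖∫ w, ((psi z n ρ w : ℝ) : ℂ) * db f w‖ := by gcongr
    have h2 : d⁻¹ * (Real.pi * d ^ 2 / 16) = Real.pi * d / 16 := by field_simp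
    rw [h2] at h1
    have h3 : 0 ≤ d⁻¹ * ‖∫ w, ((psi z n ρ w : ℝ) : ℂ) * db f w‖ := by positivity
    have h4 : d ≤ 8 * (Real.pi * d / 16) := by nlinarith
    calc d ≤ 8 * (Real.pi * d / 16) := h4
      _ ≤ 8 * (d⁻¹ * ‖∫ w, ((psi z n ρ w : ℝ) : ℂ) * db f w‖) := by gcongr
      _ ≤ (64 * C₁ + 8) * (d⁻¹ * ‖∫ w, ((psi z n ρ w : ℝ) : ℂ) * db f w‖) := by
          gcongr
          linarith

end Pool.Agent.Q89.TC
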