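import Pool.Agent.Q130.TC.Stm3
import Pool.Agent.Y145.RO.POL
import Pool.Agent.Y433.RO.PCB
import Pool.Agent.Y812.RO.PCA
import Pool.Agent.Y839.RO.POM

/-!
# Project TC, job PGF, part A: the function `(w - z 0) exp (Φ / 2)` of a polygon
-/

set_option autoImplicit false

namespace Pool.Agent.Q89.TC

open MeasureTheory Set Metric Filter Topology
open scoped ComplexConjugate
open Pool.Agent.H352R3.SA (Den pot)
open Pool.Agent.Y271.RO (db pk cost ht)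
open Pool.Agent.Y145.RO.POL (D kk Sg D_pos contDiff_kk contDiff_Sg hasFDerivAt_Sg db_Sg re_Sg)
open Pool.Agent.Q130.TC (plen NearPol)

/-- the field of a polygon -/
noncomputable def Phi (ε : ℝ) (z : ℕ → ℂ) (n : ℕ) (w : ℂ) : ℂ :=
  ∑ j ∈ Finset.range n, (z (j + 1) - z j) * Sg (kk ε) (z j) (z (j + 1) - z j) w

/-- the function `q` -/
noncomputable def qq (ε : ℝ) (z : ℕ → ℂ) (n : ℕ) (w : ℂ) : ℂ :=
  (w - z 0) * Complex.exp ((1 / 2 : ℂ) * Phi ε z n w)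

/-- the difference of `w - (z 0 + z n) / 2` and `q` -/
noncomputable def fq (ε : ℝ) (z : ℕ → ℂ) (n : ℕ) (w : ℂ) : ℂ :=
  (w - z 0) - (z n - z 0) / 2 - qq ε z n w

theorem Phi_contDiff {ε : ℝ} (hε : 0 < ε) (z : ℕ → ℂ) (n : ℕ) : ContDiff ℝ 1 (Phi ε z n) := by
  have hk := contDiff_kk hε
  unfold Phi
  apply ContDiff.sum
  intro j _
  exact contDiff_const.mul (contDiff_Sg hk _ _)

theorem re_Phi {ε : ℝ} (hε : 0 < ε) (z : ℕ → ℂ) (n : ℕ) (w : ℂ) :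
    (Phi ε z n w).re = 1 / 2 * (Real.log (D ε (z n - w)) - Real.log (D ε (z 0 - w))) := by
  simp only [Phi, Complex.re_sum, re_Sg hε]
  rw [← Finset.mul_sum]
  congr 1
  rw [← Finset.sum_range_sub (fun j => Real.log (D ε (z j - w)))]
  apply Finset.sum_congr rfl
  intro j _
  congr 3
  ring

theorem norm_db_Phi {ε : ℝ} (hε : 0 < ε) (z : ℕ → ℂ) (n : ℕ) (w : ℂ) :
    ‖db (Phi ε z n) w‖ ≤ Real.pi * cost (fun y => pk ε (y - w)) z n := by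
  have hk := contDiff_kk hε
  have hd : ∀ j, DifferentiableAt ℝ (Sg (kk ε) (z j) (z (j + 1) - z j)) w := fun j =>
    (hasFDerivAt_Sg hk _ _ w).differentiableAt
  have h1 : db (Phi ε z n) w = ∑ j ∈ Finset.range n, (z (j + 1) - z j) *
      db (Sg (kk ε) (z j) (z (j + 1) - z j)) w := by
    have h2 : HasFDerivAt (Phi ε z n) (∑ j ∈ Finset.range n, (z (j + 1) - z j) •
        fderiv ℝ (Sg (kk ε) (z j) (z (j + 1) - z j)) w) w := by
      apply HasFDerivAt.fun_sum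
      intro j _
      exact (hd j).hasFDerivAt.const_mul _
    unfold db
    rw [h2.fderiv]
    simp only [sum_apply, smul_apply, smul_eq_mul]
    rw [Finset.mul_sum, ← Finset.sum_add_distrib, Finset.sum_div]
    apply Finset.sum_congr rfl
    intro j _
    ring
  rw [h1]
  unfold cost
  rw [Finset.mul_sum]
  refine (norm_sum_le _ _).trans (Finset.sum_le_sum fun j _ => ?_)
  rw [db_Sg hε, norm_mul, norm_neg, Complex.norm_real, Real.norm_eq_abs, abs_of_nonneg]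
  · exact le_of_eq (by ring)
  · apply mul_nonneg Real.pi_pos.le
    apply intervalIntegral.integral_nonneg zero_le_one
    intro t _
    unfold pk
    positivity

theorem qq_contDiff {ε : ℝ} (hε : 0 < ε) (z : ℕ → ℂ) (n : ℕ) : ContDiff ℝ 1 (qq ε z n) :=
  (contDiff_id.sub contDiff_const).mul
    ((Complex.contDiff_exp (𝕜 := ℝ)).comp (contDiff_const.mul (Phi_contDiff hε z n)))

theorem qq_norm {ε : ℝ} (hε : 0 < ε) (z : ℕ → ℂ) (n : ℕ) (w : ℂ) :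
    ‖qq ε z n w‖ ^ 4 * (‖w - z 0‖ ^ 2 + ε ^ 2) = ‖w - z 0‖ ^ 4 * (‖w - z n‖ ^ 2 + ε ^ 2) := by
  have h0 : D ε (z 0 - w) = ‖w - z 0‖ ^ 2 + ε ^ 2 := by unfold D; rw [norm_sub_rev]
  have hm : D ε (z n - w) = ‖w - z n‖ ^ 2 + ε ^ 2 := by unfold D; rw [norm_sub_rev]
  have h0p := D_pos hε (z 0 - w)
  have hmp := D_pos hε (z n - w)
  unfold qq
  rw [← h0, ← hm, norm_mul, mul_pow, Complex.norm_exp, ← Real.exp_nat_mul]
  have h3 : ((4 : ℕ) : ℝ) * ((1 / 2 : ℂ) * Phi ε z n w).re =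
      Real.log (D ε (z n - w)) - Real.log (D ε (z 0 - w)) := by
    have : ((1 / 2 : ℂ) * Phi ε z n w).re = (Phi ε z n w).re / 2 := by
      rw [show (1 / 2 : ℂ) = ((1 / 2 : ℝ) : ℂ) by push_cast; rfl, Complex.re_ofReal_mul]; ring
    rw [this, re_Phi hε]; push_cast; ring
  rw [h3, Real.exp_sub, Real.exp_log hmp, Real.exp_log h0p]
  field_simp

theorem norm_db_qq {ε : ℝ} (hε : 0 < ε) (z : ℕ → ℂ) (n : ℕ) (w : ℂ) :
    ‖db (qq ε z n) w‖ ≤ Real.pi / 2 * ‖qq ε z n w‖ * cost (fun y => pk ε (y - w)) z n := by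
  have hΦd : HasFDerivAt (Phi ε z n) (fderiv ℝ (Phi ε z n) w) w :=
    ((Phi_contDiff hε z n).differentiable one_ne_zero w).hasFDerivAt
  have h1 : HasFDerivAt (fun w : ℂ => w - z 0) (ContinuousLinearMap.id ℝ ℂ) w :=
    (hasFDerivAt_id w).sub_const _
  have h2 : HasFDerivAt (fun w => Complex.exp ((1 / 2 : ℂ) * Phi ε z n w))
      (Complex.exp ((1 / 2 : ℂ) * Phi ε z n w) • ((1 / 2 : ℂ) • fderiv ℝ (Phi ε z n) w)) w := by
    have h3 : HasFDerivAt (fun w => (1 / 2 : ℂ) * Phi ε z n w)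
        ((1 / 2 : ℂ) • fderiv ℝ (Phi ε z n) w) w :=
      hΦd.const_mul (1 / 2 : ℂ)
    exact h3.cexp
  have h4 := (h1.mul h2).fderiv
  have h5 : db (qq ε z n) w = qq ε z n w * db (Phi ε z n) w / 2 := by
    unfold db
    have h6 : fderiv ℝ (qq ε z n) w =
      (w - z 0) • (Complex.exp ((1 / 2 : ℂ) * Phi ε z n w) •
          ((1 / 2 : ℂ) • fderiv ℝ (Phi ε z n) w)) +
        Complex.exp ((1 / 2 : ℂ) * Phi ε z n w) • (ContinuousLinearMap.id ℝ ℂ) := h4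
    rw [h6]
    simp only [add_apply, smul_apply, smul_eq_mul,
      ContinuousLinearMap.id_apply, qq]
    linear_combination (Complex.exp ((1 / 2 : ℂ) * Phi ε z n w) / 2) * Complex.I_mul_I
  rw [h5, norm_div, norm_mul]
  have h7 := norm_db_Phi hε z n w
  have h8 : ‖(2 : ℂ)‖ = 2 := by simp
  rw [h8]
  have h9 := norm_nonneg (qq ε z n w)
  calc ‖qq ε z n w‖ * ‖db (Phi ε z n) w‖ / 2
      ≤ ‖qq ε z n w‖ * (Real.pi * cost (fun y => pk ε (y - w)) z n) / 2 := by gcongr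
    _ = Real.pi / 2 * ‖qq ε z n w‖ * cost (fun y => pk ε (y - w)) z n := by ring

theorem fq_contDiff {ε : ℝ} (hε : 0 < ε) (z : ℕ → ℂ) (n : ℕ) : ContDiff ℝ 1 (fq ε z n) :=
  ((contDiff_id.sub contDiff_const).sub contDiff_const).sub (qq_contDiff hε z n)

theorem norm_db_fq {ε : ℝ} (hε : 0 < ε) (z : ℕ → ℂ) (n : ℕ) (w : ℂ) :
    ‖db (fq ε z n) w‖ ≤ Real.pi / 2 * ‖qq ε z n w‖ * cost (fun y => pk ε (y - w)) z n := by
  have h0 : HasFDerivAt (fun w : ℂ => w - z 0) (ContinuousLinearMap.id ℝ ℂ) w :=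
    (hasFDerivAt_id w).sub_const _
  have h1 : HasFDerivAt (qq ε z n) (fderiv ℝ (qq ε z n) w) w :=
    ((qq_contDiff hε z n).differentiable one_ne_zero w).hasFDerivAt
  have h2 := ((h0.sub_const ((z n - z 0) / 2)).sub h1).fderiv
  have h3 : fderiv ℝ (fq ε z n) w = ContinuousLinearMap.id ℝ ℂ - fderiv ℝ (qq ε z n) w := h2
  have h4 : db (fq ε z n) w = - db (qq ε z n) w := by
    unfold db
    rw [h3]
    simp only [sub_apply, ContinuousLinearMap.id_apply]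
    linear_combination (1 / 2 : ℂ) * Complex.I_mul_I
  rw [h4, norm_neg]
  exact norm_db_qq hε z n w

theorem plen_nonneg (z : ℕ → ℂ) (n : ℕ) : 0 ≤ plen z n :=
  Finset.sum_nonneg fun _ _ => norm_nonneg _

theorem plen_mono (z : ℕ → ℂ) {m n : ℕ} (h : m ≤ n) : plen z m ≤ plen z n :=
  Finset.sum_le_sum_of_subset_of_nonneg (Finset.range_mono h) fun _ _ _ => norm_nonneg _

theorem norm_sub_le_plen (z : ℕ → ℂ) (n : ℕ) : ‖z n - z 0‖ ≤ plen z n := by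
  rw [← Finset.sum_range_sub]
  exact norm_sum_le _ _

/-- points of the polygon -/
theorem norm_pt (z : ℕ → ℂ) {n j : ℕ} (hj : j < n) {t : ℝ} (h0 : 0 ≤ t) (h1 : t ≤ 1) :
    ‖z j + t * (z (j + 1) - z j) - z 0‖ ≤ plen z n := by
  have h2 : z j + t * (z (j + 1) - z j) - z 0 = (z j - z 0) + t * (z (j + 1) - z j) := by ring
  rw [h2]
  have h3 : ‖(t : ℂ) * (z (j + 1) - z j)‖ ≤ ‖z (j + 1) - z j‖ := by
    rw [norm_mul, Complex.norm_real, Real.norm_of_nonneg h0]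
    exact mul_le_of_le_one_left (norm_nonneg _) h1
  calc ‖(z j - z 0) + t * (z (j + 1) - z j)‖
      ≤ ‖z j - z 0‖ + ‖(t : ℂ) * (z (j + 1) - z j)‖ := norm_add_le _ _
    _ ≤ plen z j + ‖z (j + 1) - z j‖ := add_le_add (norm_sub_le_plen z j) h3
    _ = plen z (j + 1) := by unfold plen; rw [Finset.sum_range_succ]
    _ ≤ plen z n := plen_mono z hj

theorem norm_kk_le {ε : ℝ} (hε : 0 < ε) (y : ℂ) : ‖kk ε y‖ ≤ ‖y‖⁻¹ := by
  unfold kk
  have hD := D_pos hε y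
  rw [norm_mul, Complex.norm_conj, Complex.norm_real, Real.norm_of_nonneg (by positivity)]
  rcases eq_or_lt_of_le (norm_nonneg y) with h | h
  · rw [← h]; simp
  · rw [← div_eq_mul_inv, div_le_iff₀ hD]
    unfold D
    have h2 : ‖y‖⁻¹ * (‖y‖ ^ 2 + ε ^ 2) = ‖y‖ + ‖y‖⁻¹ * ε ^ 2 := by
      field_simp
    rw [h2]
    have : 0 ≤ ‖y‖⁻¹ * ε ^ 2 := by positivity
    linarith

theorem kk_asymp {ε : ℝ} (hε : 0 < ε) {l : ℝ} (hl : 0 < l) {s u : ℂ} (hs : ‖s‖ ≤ l)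
    (hu : 2 * l ≤ ‖u‖) : ‖u ^ 2 * kk ε (s - u) + u + s‖ ≤ (2 * l ^ 2 + 8 * ε ^ 2) / ‖u‖ := by
  have hu0 : 0 < ‖u‖ := by linarith
  obtain ⟨y, hy⟩ : ∃ y : ℂ, y = s - u := ⟨_, rfl⟩
  have hyn : ‖u‖ / 2 ≤ ‖y‖ := by
    have h1 : ‖u‖ ≤ ‖y‖ + ‖s‖ := by
      have h2 : u = s - y := by rw [hy]; ring
      rw [h2, add_comm ‖y‖]
      exact norm_sub_le _ _
    linarith
  have hy0 : 0 < ‖y‖ := by linarith
  have hyne : y ≠ 0 := norm_pos_iff.1 hy0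
  have hD := D_pos hε y
  have hDne : ((D ε y : ℝ) : ℂ) ≠ 0 := by exact_mod_cast hD.ne'
  have hkk : kk ε y = y⁻¹ - ((ε ^ 2 : ℝ) : ℂ) * (y⁻¹ * ((D ε y : ℝ) : ℂ)⁻¹) := by
    unfold kk
    have h1 : (conj y) * y = ((‖y‖ ^ 2 : ℝ) : ℂ) := by
      rw [mul_comm, Complex.mul_conj, Complex.normSq_eq_norm_sq]
    have h2 : ((D ε y : ℝ) : ℂ) = ((‖y‖ ^ 2 : ℝ) : ℂ) + ((ε ^ 2 : ℝ) : ℂ) := by
      unfold D; push_cast; ring
    have h3 : (conj y) * y = ((D ε y : ℝ) : ℂ) - ((ε ^ 2 : ℝ) : ℂ) := by rw [h1, h2]; ring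
    rw [Complex.ofReal_inv]
    field_simp
    linear_combination h3
  have hmain : u ^ 2 * kk ε (s - u) + u + s =
      s ^ 2 * y⁻¹ - u ^ 2 * ((ε ^ 2 : ℝ) : ℂ) * (y⁻¹ * ((D ε y : ℝ) : ℂ)⁻¹) := by
    rw [← hy, hkk]
    have h1 : u ^ 2 * y⁻¹ + u + s = s ^ 2 * y⁻¹ := by
      field_simp
      rw [hy]; ring
    linear_combination h1
  rw [hmain]
  refine (norm_sub_le _ _).trans ?_
  rw [norm_mul, norm_mul, norm_mul, norm_mul, norm_pow, norm_pow, norm_inv, norm_inv,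
    Complex.norm_real, Complex.norm_real, Real.norm_of_nonneg hD.le,
    Real.norm_of_nonneg (by positivity : (0:ℝ) ≤ ε ^ 2)]
  have hyi : ‖y‖⁻¹ ≤ 2 / ‖u‖ := by
    rw [inv_le_comm₀ hy0 (by positivity), inv_div]
    exact hyn
  have hDi : (D ε y)⁻¹ ≤ 4 / ‖u‖ ^ 2 := by
    rw [inv_le_comm₀ hD (by positivity), inv_div]
    unfold D
    nlinarith [sq_nonneg ε, hyn, hu0]
  have hs2 : ‖s‖ ^ 2 ≤ l ^ 2 := by
    have := norm_nonneg s
    gcongr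
  calc ‖s‖ ^ 2 * ‖y‖⁻¹ + ‖u‖ ^ 2 * ε ^ 2 * (‖y‖⁻¹ * (D ε y)⁻¹)
      ≤ l ^ 2 * (2 / ‖u‖) + ‖u‖ ^ 2 * ε ^ 2 * ((2 / ‖u‖) * (4 / ‖u‖ ^ 2)) := by gcongr
    _ = (2 * l ^ 2 + 8 * ε ^ 2) / ‖u‖ := by field_simp; ring

end Pool.Agent.Q89.TC
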