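import Pool.Agent.Q89.TC.A

/-!
# Project TC, job PGF, part B: the function of a polygon at infinity
-/

set_option autoImplicit false

namespace Pool.Agent.Q89.TC

open MeasureTheory Set Metric Filter Topology
open scoped ComplexConjugate
open Pool.Agent.H352R3.SA (Den pot)
open Pool.Agent.Y271.RO (db pk cost ht)
open Pool.Agent.Y145.RO.POL (D kk Sg D_pos contDiff_kk contDiff_Sg hasFDerivAt_Sg db_Sg re_Sg)
open Pool.Agent.Q130.TC (plen NearPol)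

theorem norm_Phi_le {ε : ℝ} (hε : 0 < ε) (z : ℕ → ℂ) (n : ℕ) (w : ℂ)
    (hw : plen z n < ‖w - z 0‖) : ‖Phi ε z n w‖ ≤ plen z n * (‖w - z 0‖ - plen z n)⁻¹ := by
  unfold Phi
  refine (norm_sum_le _ _).trans ?_
  have h1 : plen z n * (‖w - z 0‖ - plen z n)⁻¹ =
      ∑ j ∈ Finset.range n, ‖z (j + 1) - z j‖ * (‖w - z 0‖ - plen z n)⁻¹ := by
    rw [← Finset.sum_mul]
    rfl
  rw [h1]
  refine Finset.sum_le_sum fun j hj => ?_
  rw [norm_mul]
  refine mul_le_mul_of_nonneg_left ?_ (norm_nonneg _)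
  unfold Sg
  have h2 := intervalIntegral.norm_integral_le_of_norm_le_const (a := (0:ℝ)) (b := 1)
    (f := fun t : ℝ => kk ε (z j + t * (z (j + 1) - z j) - w)) (C := (‖w - z 0‖ - plen z n)⁻¹)
    (fun t ht => ?_)
  · simpa using h2
  · rw [uIoc_of_le zero_le_one] at ht
    have h3 := norm_pt z (Finset.mem_range.1 hj) ht.1.le ht.2
    refine (norm_kk_le hε _).trans ?_
    refine inv_anti₀ (by linarith) ?_
    have h4 : ‖w - z 0‖ ≤ ‖z j + t * (z (j + 1) - z j) - w‖ +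
        ‖z j + t * (z (j + 1) - z j) - z 0‖ := by
      have h5 : w - z 0 = (z j + t * (z (j + 1) - z j) - z 0) -
        (z j + t * (z (j + 1) - z j) - w) := by ring
      have h6 := norm_sub_le (z j + t * (z (j + 1) - z j) - z 0)
        (z j + t * (z (j + 1) - z j) - w)
      rw [← h5] at h6
      linarith
    linarith

/-- one segment -/
theorem seg_asymp {ε : ℝ} (hε : 0 < ε) (z : ℕ → ℂ) {n : ℕ} (hl : 0 < plen z n) {j : ℕ}
    (hj : j < n) (w : ℂ) (hw : 2 * plen z n ≤ ‖w - z 0‖) :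
    ‖(w - z 0) ^ 2 * Sg (kk ε) (z j) (z (j + 1) - z j) w + (w - z 0) +
      ((z j - z 0) + (z (j + 1) - z j) / 2)‖ ≤
      (2 * plen z n ^ 2 + 8 * ε ^ 2) / ‖w - z 0‖ := by
  obtain ⟨u, hu⟩ : ∃ u : ℂ, u = w - z 0 := ⟨_, rfl⟩
  obtain ⟨e, he⟩ : ∃ e : ℂ, e = z (j + 1) - z j := ⟨_, rfl⟩
  rw [← hu] at hw ⊢
  rw [← he]
  have hkc : Continuous (kk ε) := (contDiff_kk hε).continuous
  have hc1 : Continuous fun t : ℝ => u ^ 2 * kk ε (z j + t * e - w) := by fun_prop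
  have hc2 : Continuous fun t : ℝ => (z j + (t : ℂ) * e - z 0) := by fun_prop
  have hlin : ∫ t in (0:ℝ)..1, (z j + (t : ℂ) * e - z 0) = (z j - z 0) + e / 2 := by
    have h1 : ∀ t : ℝ, z j + (t : ℂ) * e - z 0 = (z j - z 0) + (t : ℂ) * e := fun t => by ring
    simp_rw [h1]
    rw [intervalIntegral.integral_add (by simp) ((by fun_prop : Continuous fun t : ℝ =>
      (t : ℂ) * e).intervalIntegrable _ _), intervalIntegral.integral_mul_const]
    have h2 : ∫ t in (0:ℝ)..1, (t : ℂ) = 1 / 2 := by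
      rw [intervalIntegral.integral_ofReal]
      simp
    rw [h2]
    simp
    ring
  have hsum : u ^ 2 * Sg (kk ε) (z j) e w + u + ((z j - z 0) + e / 2) =
      ∫ t in (0:ℝ)..1, (u ^ 2 * kk ε (z j + t * e - w) + u + (z j + (t : ℂ) * e - z 0)) := by
    have hc3 : Continuous fun t : ℝ => u ^ 2 * kk ε (z j + t * e - w) + u :=
      hc1.add continuous_const
    have hc4 : Continuous fun _ : ℝ => u := continuous_const
    have h1 := intervalIntegral.integral_add (μ := volume) (hc3.intervalIntegrable 0 1)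
      (hc2.intervalIntegrable 0 1)
    have h2 := intervalIntegral.integral_add (μ := volume) (hc1.intervalIntegrable 0 1)
      (hc4.intervalIntegrable 0 1)
    rw [h1, h2, intervalIntegral.integral_const_mul, hlin]
    simp [Sg]
  rw [hsum]
  have h2 := intervalIntegral.norm_integral_le_of_norm_le_const (a := (0:ℝ)) (b := 1)
    (f := fun t : ℝ => u ^ 2 * kk ε (z j + t * e - w) + u + (z j + (t : ℂ) * e - z 0))
    (C := (2 * plen z n ^ 2 + 8 * ε ^ 2) / ‖u‖) (fun t ht => ?_)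
  · simpa using h2
  · rw [uIoc_of_le zero_le_one] at ht
    have h3 := norm_pt z hj ht.1.le ht.2
    rw [← he] at h3
    have h4 := kk_asymp hε hl h3 hw
    have h5 : z j + t * e - z 0 - u = z j + t * e - w := by rw [hu]; ring
    rw [h5] at h4
    exact h4

theorem Phi_asymp {ε : ℝ} (hε : 0 < ε) (z : ℕ → ℂ) {n : ℕ} (hl : 0 < plen z n) (w : ℂ)
    (hw : 2 * plen z n ≤ ‖w - z 0‖) :
    ‖(w - z 0) ^ 2 * Phi ε z n w + (w - z 0) * (z n - z 0) + (z n - z 0) ^ 2 / 2‖ ≤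
      plen z n * ((2 * plen z n ^ 2 + 8 * ε ^ 2) / ‖w - z 0‖) := by
  have h1 : (w - z 0) ^ 2 * Phi ε z n w + (w - z 0) * (z n - z 0) + (z n - z 0) ^ 2 / 2 =
      ∑ j ∈ Finset.range n, (z (j + 1) - z j) *
        ((w - z 0) ^ 2 * Sg (kk ε) (z j) (z (j + 1) - z j) w + (w - z 0) +
          ((z j - z 0) + (z (j + 1) - z j) / 2)) := by
    have h2 : z n - z 0 = ∑ j ∈ Finset.range n, (z (j + 1) - z j) := by
      rw [Finset.sum_range_sub]
    have h3 : (z n - z 0) ^ 2 / 2 =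
        ∑ j ∈ Finset.range n, ((z (j + 1) - z 0) ^ 2 / 2 - (z j - z 0) ^ 2 / 2) := by
      rw [Finset.sum_range_sub (fun j => (z j - z 0) ^ 2 / 2)]
      simp
    rw [h3]
    nth_rewrite 1 [h2]
    unfold Phi
    rw [Finset.mul_sum, Finset.mul_sum, ← Finset.sum_add_distrib, ← Finset.sum_add_distrib]
    refine Finset.sum_congr rfl fun j _ => ?_
    ring
  rw [h1]
  refine (norm_sum_le _ _).trans ?_
  have h4 : plen z n * ((2 * plen z n ^ 2 + 8 * ε ^ 2) / ‖w - z 0‖) =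
      ∑ j ∈ Finset.range n, ‖z (j + 1) - z j‖ *
        ((2 * plen z n ^ 2 + 8 * ε ^ 2) / ‖w - z 0‖) := by
    rw [← Finset.sum_mul]
    rfl
  rw [h4]
  refine Finset.sum_le_sum fun j hj => ?_
  rw [norm_mul]
  exact mul_le_mul_of_nonneg_left (seg_asymp hε z hl (Finset.mem_range.1 hj) w hw)
    (norm_nonneg _)

theorem qq_le {ε : ℝ} (hε : 0 < ε) (z : ℕ → ℂ) (n : ℕ) (hl : ε ≤ plen z n) (w : ℂ) :
    ‖qq ε z n w‖ ≤ ‖w - z 0‖ + 2 * plen z n := by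
  have h1 := qq_norm hε z n w
  have hl0 : 0 < plen z n := hε.trans_le hl
  have hD := norm_sub_le_plen z n
  obtain ⟨u, hu⟩ : ∃ u : ℝ, u = ‖w - z 0‖ := ⟨_, rfl⟩
  obtain ⟨v, hv⟩ : ∃ v : ℝ, v = ‖w - z n‖ := ⟨_, rfl⟩
  obtain ⟨x, hx⟩ : ∃ x : ℝ, x = ‖qq ε z n w‖ := ⟨_, rfl⟩
  obtain ⟨l, hl'⟩ : ∃ l : ℝ, l = plen z n := ⟨_, rfl⟩
  have hu0 : 0 ≤ u := hu ▸ norm_nonneg _
  have hv0 : 0 ≤ v := hv ▸ norm_nonneg _
  have hvu : v ≤ u + l := by
    have h2 : w - z n = (w - z 0) - (z n - z 0) := by ring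
    rw [hv, h2, hu, hl']
    exact (norm_sub_le _ _).trans (by linarith)
  rw [← hu, ← hv, ← hx] at h1
  rw [← hu, ← hx, ← hl']
  rw [← hl'] at hl hl0
  have h3 : x ^ 4 ≤ (u + 2 * l) ^ 4 := by
    have h4 : x ^ 4 * (u ^ 2 + ε ^ 2) ≤ (u + 2 * l) ^ 4 * (u ^ 2 + ε ^ 2) := by
      rw [h1]
      have h5 : v ^ 2 + ε ^ 2 ≤ (u + 2 * l) ^ 2 := by
        have h51 : v ^ 2 ≤ (u + l) ^ 2 := by gcongr
        have h52 : ε ^ 2 ≤ l ^ 2 := by gcongr
        nlinarith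
      have h6 : u ^ 2 ≤ (u + 2 * l) ^ 2 := by
        gcongr
        linarith
      calc u ^ 4 * (v ^ 2 + ε ^ 2) ≤ u ^ 4 * (u + 2 * l) ^ 2 := by gcongr
        _ = u ^ 2 * (u + 2 * l) ^ 2 * u ^ 2 := by ring
        _ ≤ (u + 2 * l) ^ 2 * (u + 2 * l) ^ 2 * (u ^ 2 + ε ^ 2) := by
          gcongr
          nlinarith [sq_nonneg ε]
        _ = (u + 2 * l) ^ 4 * (u ^ 2 + ε ^ 2) := by ring
    have h7 : 0 < u ^ 2 + ε ^ 2 := by positivity
    exact le_of_mul_le_mul_right h4 h7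
  exact le_of_pow_le_pow_left₀ (by norm_num) (by positivity) h3

theorem fq_le {ε : ℝ} (hε : 0 < ε) (z : ℕ → ℂ) (n : ℕ) (hl : ε ≤ plen z n) (w : ℂ) :
    ‖fq ε z n w‖ ≤ 20 * plen z n := by
  have hl0 : 0 < plen z n := hε.trans_le hl
  have hD := norm_sub_le_plen z n
  have hD2 : ‖(z n - z 0) / 2‖ ≤ plen z n / 2 := by
    rw [norm_div]
    simp only [Complex.norm_ofNat]
    linarith
  by_cases hw : ‖w - z 0‖ ≤ 8 * plen z n
  · have h1 := qq_le hε z n hl w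
    unfold fq
    calc ‖w - z 0 - (z n - z 0) / 2 - qq ε z n w‖
        ≤ ‖w - z 0 - (z n - z 0) / 2‖ + ‖qq ε z n w‖ := norm_sub_le _ _
      _ ≤ ‖w - z 0‖ + ‖(z n - z 0) / 2‖ + ‖qq ε z n w‖ := by
        have := norm_sub_le (w - z 0) ((z n - z 0) / 2)
        linarith
      _ ≤ 20 * plen z n := by linarith
  · push Not at hw
    have h1 := norm_Phi_le hε z n w (by linarith)
    obtain ⟨l, hl'⟩ : ∃ l : ℝ, l = plen z n := ⟨_, rfl⟩
    obtain ⟨P, hP⟩ : ∃ P : ℂ, P = (1 / 2 : ℂ) * Phi ε z n w := ⟨_, rfl⟩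
    have h2 : ‖P‖ ≤ l / ‖w - z 0‖ := by
      rw [hP, norm_mul]
      have h3 : ‖(1 / 2 : ℂ)‖ = 1 / 2 := by simp
      rw [h3]
      have h4 : l * (‖w - z 0‖ - l)⁻¹ ≤ 2 * (l / ‖w - z 0‖) := by
        rw [← div_eq_mul_inv, ← mul_div_assoc, div_le_div_iff₀ (by rw [hl']; linarith)
          (by linarith)]
        rw [← hl'] at hw hl0
        nlinarith
      rw [← hl'] at h1
      linarith
    have h5 : ‖P‖ ≤ 1 := by
      refine h2.trans ?_
      rw [div_le_one (by linarith), hl']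
      linarith
    have h6 := Complex.norm_exp_sub_one_le h5
    have h7 : fq ε z n w = -((z n - z 0) / 2) - (w - z 0) * (Complex.exp P - 1) := by
      unfold fq qq
      rw [← hP]
      ring
    rw [h7]
    have h8 : ‖(w - z 0) * (Complex.exp P - 1)‖ ≤ 2 * l := by
      rw [norm_mul]
      have hu0 : 0 < ‖w - z 0‖ := by linarith
      calc ‖w - z 0‖ * ‖Complex.exp P - 1‖ ≤ ‖w - z 0‖ * (2 * (l / ‖w - z 0‖)) := by
            gcongr
            linarith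
        _ = 2 * l := by field_simp
    calc ‖-((z n - z 0) / 2) - (w - z 0) * (Complex.exp P - 1)‖
        ≤ ‖-((z n - z 0) / 2)‖ + ‖(w - z 0) * (Complex.exp P - 1)‖ := norm_sub_le _ _
      _ ≤ plen z n / 2 + 2 * l := by rw [norm_neg]; linarith
      _ ≤ 20 * plen z n := by rw [hl']; linarith

/-- the exponential up to the second order -/
theorem exp_two (x : ℂ) (hx : ‖x‖ ≤ 1) : ‖Complex.exp x - 1 - x - x ^ 2 / 2‖ ≤ ‖x‖ ^ 3 := by
  have h := Complex.exp_bound hx (n := 3) (by norm_num)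
  have h1 : ∑ m ∈ Finset.range 3, x ^ m / (m.factorial : ℂ) = 1 + x + x ^ 2 / 2 := by
    simp [Finset.sum_range_succ, Nat.factorial]
  rw [h1] at h
  have h2 : Complex.exp x - 1 - x - x ^ 2 / 2 = Complex.exp x - (1 + x + x ^ 2 / 2) := by ring
  rw [h2]
  refine h.trans ?_
  have h3 : (((Nat.succ 3 : ℕ) : ℝ) * (((Nat.factorial 3 : ℕ) : ℝ) * ((3 : ℕ) : ℝ))⁻¹) ≤ 1 := by
    norm_num [Nat.factorial]
  have h4 : 0 ≤ ‖x‖ ^ 3 := by positivity
  calc ‖x‖ ^ 3 * (((Nat.succ 3 : ℕ) : ℝ) * (((Nat.factorial 3 : ℕ) : ℝ) * ((3 : ℕ) : ℝ))⁻¹)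
      ≤ ‖x‖ ^ 3 * 1 := mul_le_mul_of_nonneg_left h3 h4
    _ = ‖x‖ ^ 3 := mul_one _

theorem fq_tendsto {ε : ℝ} (hε : 0 < ε) (z : ℕ → ℂ) (n : ℕ) (hl : 0 < plen z n) :
    Tendsto (fun w => (w - z 0) * fq ε z n w) (cocompact ℂ) (𝓝 ((z n - z 0) ^ 2 / 8)) := by
  obtain ⟨l, hl'⟩ : ∃ l : ℝ, l = plen z n := ⟨_, rfl⟩
  obtain ⟨Dl, hDl⟩ : ∃ Dl : ℂ, Dl = z n - z 0 := ⟨_, rfl⟩
  have hnorm : Tendsto (fun w : ℂ => ‖w - z 0‖) (cocompact ℂ) atTop := by
    have h1 := tendsto_norm_cocompact_atTop (E := ℂ)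
    have h2 : Tendsto (fun w : ℂ => ‖w‖ - ‖z 0‖) (cocompact ℂ) atTop :=
      tendsto_atTop_add_const_right _ _ h1
    exact tendsto_atTop_mono (fun w => norm_sub_norm_le w (z 0)) h2
  have hinv : Tendsto (fun w : ℂ => ‖w - z 0‖⁻¹) (cocompact ℂ) (𝓝 0) :=
    tendsto_inv_atTop_zero.comp hnorm
  have hev : ∀ᶠ w : ℂ in cocompact ℂ, 2 * l ≤ ‖w - z 0‖ := hnorm.eventually_ge_atTop _
  have hev1 : ∀ᶠ w : ℂ in cocompact ℂ, 1 ≤ ‖w - z 0‖ := hnorm.eventually_ge_atTop _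
  -- first order two
  have hA : Tendsto (fun w => (w - z 0) ^ 2 * Phi ε z n w + (w - z 0) * Dl) (cocompact ℂ)
      (𝓝 (-(Dl ^ 2 / 2))) := by
    rw [tendsto_iff_norm_sub_tendsto_zero]
    have hb : Tendsto (fun w : ℂ => l * (2 * l ^ 2 + 8 * ε ^ 2) * ‖w - z 0‖⁻¹) (cocompact ℂ)
        (𝓝 0) := by
      have := hinv.const_mul (l * (2 * l ^ 2 + 8 * ε ^ 2))
      rwa [mul_zero] at this
    refine squeeze_zero' (Eventually.of_forall fun w => norm_nonneg _) ?_ hb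
    filter_upwards [hev] with w hw
    have h1 := Phi_asymp hε z hl w (by rw [← hl']; exact hw)
    rw [← hl', ← hDl] at h1
    have h2 : (w - z 0) ^ 2 * Phi ε z n w + (w - z 0) * Dl - -(Dl ^ 2 / 2) =
      (w - z 0) ^ 2 * Phi ε z n w + (w - z 0) * Dl + Dl ^ 2 / 2 := by ring
    rw [h2]
    refine h1.trans (le_of_eq ?_)
    ring
  have hcinv : Tendsto (fun w : ℂ => (w - z 0)⁻¹) (cocompact ℂ) (𝓝 0) := by
    rw [tendsto_zero_iff_norm_tendsto_zero]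
    simpa using hinv
  have hB : Tendsto (fun w => (w - z 0) * Phi ε z n w) (cocompact ℂ) (𝓝 (-Dl)) := by
    have h1 := (hA.mul hcinv).sub_const Dl
    have h2 : -(Dl ^ 2 / 2) * 0 - Dl = -Dl := by ring
    rw [h2] at h1
    refine h1.congr' ?_
    filter_upwards [hev1] with w hw
    have hne : w - z 0 ≠ 0 := by
      rw [← norm_pos_iff]; linarith
    field_simp
    ring
  have hP0 : Tendsto (fun w => (1 / 2 : ℂ) * Phi ε z n w) (cocompact ℂ) (𝓝 0) := by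
    have h1 := ((hB.mul hcinv).const_mul (1 / 2 : ℂ))
    have h2 : (1 / 2 : ℂ) * (-Dl * 0) = 0 := by ring
    rw [h2] at h1
    refine h1.congr' ?_
    filter_upwards [hev1] with w hw
    have hne : w - z 0 ≠ 0 := by
      rw [← norm_pos_iff]; linarith
    field_simp
  have hE : Tendsto (fun w => (w - z 0) ^ 2 * (Complex.exp ((1 / 2 : ℂ) * Phi ε z n w) - 1 -
      (1 / 2 : ℂ) * Phi ε z n w - ((1 / 2 : ℂ) * Phi ε z n w) ^ 2 / 2)) (cocompact ℂ) (𝓝 0) := by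
    have h3 : Tendsto (fun w => ‖(w - z 0) * Phi ε z n w‖ ^ 2 * ‖(1 / 2 : ℂ) * Phi ε z n w‖)
        (cocompact ℂ) (𝓝 0) := by
      have := (hB.norm.pow 2).mul hP0.norm
      simpa using this
    rw [tendsto_zero_iff_norm_tendsto_zero]
    have hsmall : ∀ᶠ w : ℂ in cocompact ℂ, ‖(1 / 2 : ℂ) * Phi ε z n w‖ ≤ 1 := by
      have := hP0.norm
      rw [norm_zero] at this
      exact this.eventually_le_const (by norm_num)
    refine squeeze_zero' (Eventually.of_forall fun w => norm_nonneg _) ?_ h3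
    filter_upwards [hsmall] with w hw
    rw [norm_mul]
    have h4 := exp_two _ hw
    have h5 : ‖(1 / 2 : ℂ) * Phi ε z n w‖ = 1 / 2 * ‖Phi ε z n w‖ := by
      rw [norm_mul]; simp
    calc ‖(w - z 0) ^ 2‖ * ‖Complex.exp ((1 / 2 : ℂ) * Phi ε z n w) - 1 -
        (1 / 2 : ℂ) * Phi ε z n w - ((1 / 2 : ℂ) * Phi ε z n w) ^ 2 / 2‖
        ≤ ‖(w - z 0) ^ 2‖ * ‖(1 / 2 : ℂ) * Phi ε z n w‖ ^ 3 := by gcongr
      _ = (1 / 4) * (‖(w - z 0) * Phi ε z n w‖ ^ 2 * ‖(1 / 2 : ℂ) * Phi ε z n w‖) := by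
          rw [h5, norm_pow, norm_mul]; ring
      _ ≤ ‖(w - z 0) * Phi ε z n w‖ ^ 2 * ‖(1 / 2 : ℂ) * Phi ε z n w‖ := by
          have : 0 ≤ ‖(w - z 0) * Phi ε z n w‖ ^ 2 * ‖(1 / 2 : ℂ) * Phi ε z n w‖ := by
            positivity
          linarith
  have hfin := ((hA.const_mul (-(1 / 2) : ℂ)).sub ((hB.pow 2).mul_const (1 / 8 : ℂ))).sub hE
  have h9 : -(1 / 2) * -(Dl ^ 2 / 2) - (-Dl) ^ 2 * (1 / 8) - 0 = Dl ^ 2 / 8 := by ring
  rw [h9, hDl] at hfin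
  refine hfin.congr fun w => ?_
  unfold fq qq
  ring

end Pool.Agent.Q89.TC
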